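import Pool.Agent.BoltzD.En.Split
import Pool.Agent.BoltzD.Solver.Ops
import Pool.Agent.BoltzD.Lin.YF
import Pool.Agent.BoltzD.C3.Chain
import Pool.Agent.BoltzD.Coll.Bound
import Mathlib.Data.Int.Star
import Pool.Agent.BoltzD.Pos.Gr
import Mathlib.Analysis.SpecialFunctions.Pow.Integral
import Pool.Agent.BoltzD.Bg.Hyp
import Pool.Agent.BoltzD.KK.Main
import Pool.Agent.BoltzD.Lin.Main
import Pool.Agent.BoltzD.Uq.Fin
import Pool.Agent.BoltzD.M7.SvLim
import Pool.Agent.BoltzD.Bg.Main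
import Pool.Agent.BoltzD.Pic.Seq
import Pool.Agent.BoltzD.M7.Change
import Pool.Agent.BoltzD.Pic.LimC

-- ======== part 0: formerly Pool.Agent.BoltzD.Corr2.Sym
section MrgPart0

/-!
Symbols that are uniform in the time `s ≥ 0`: scalar calculus, finite sums of symbols times fixed
Schwartz functions, and the bound of the energy density.
-/

set_option autoImplicit false

open Pool.Agent.BoltzC Finset

noncomputable section

namespace Pool.Agent.BoltzD.Corr2

variable [Dim]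

/-- The inverse of a non-vanishing smooth family is smooth. -/
theorem smC_inv {T : Type*} [TopologicalSpace T] {c : T → E3 → ℝ} (hc : SmC c)
    (h0 : ∀ s x, c s x ≠ 0) : SmC fun s x => (c s x)⁻¹ := by
  refine smC_coind (fun g => ∃ (k : ℕ) (a : T → E3 → ℝ), SmC a ∧
    g = fun s x => a s x * (c s x)⁻¹ ^ k) ?_ ⟨1, fun _ _ => 1, SmC.const 1, by simp⟩
  rintro g ⟨k, a, ha, rfl⟩
  refine ⟨ha.cont.mul ((hc.cont.inv₀ fun p => h0 p.1 p.2).pow k), fun i =>
    ⟨_, ⟨k + 1, fun s x => dX i (a s) x * c s x - (k : ℝ) • (a s x * dX i (c s) x),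
      ((ha.dX i).mul hc).sub ((ha.mul (hc.dX i)).const_smul k), rfl⟩, fun s x => ?_⟩⟩
  have h1 := (ha.dif s i x).hasDerivAt
  have h2 := (hc.dif s i x).hasDerivAt
  have h3 := h1.mul ((h2.inv (by simpa using h0 s x)).pow k)
  refine HasDerivAt.hd (h3.congr_deriv ?_)
  have := h0 s x
  simp only [zero_smul, add_zero, Pi.pow_apply, Pi.inv_apply, smul_eq_mul]
  rcases k with _ | k
  · simp; field_simp
  · simp only [Nat.add_sub_cancel, pow_succ]
    field_simp
    ring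

theorem dX_inv {c : E3 → ℝ} (hc : Dif c) (h0 : ∀ x, c x ≠ 0) (i : Ix) :
    dX i (fun x => (c x)⁻¹) = fun x => (-1 : ℝ) * (dX i c x * ((c x)⁻¹ * (c x)⁻¹)) := by
  funext x
  refine dX_eq (HasDerivAt.hd (((hc i x).hasDerivAt.inv (by simpa using h0 x)).congr_deriv ?_))
  have := h0 x
  simp only [zero_smul, add_zero]
  field_simp

theorem smD_inv {c c' : ℝ → E3 → ℝ} (hc : SmD c c') (h0 : ∀ s x, c s x ≠ 0) :
    SmD (fun s x => (c s x)⁻¹) fun s x => (-1 : ℝ) * (c' s x * ((c s x)⁻¹ * (c s x)⁻¹)) := by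
  have hi := smC_inv hc.sm h0
  refine ⟨hi, (hc.sm'.mul (hi.mul hi)).const_smul (-1), fun s x => ?_⟩
  refine HasDerivAt.hd (((hc.hd s x).hasDerivAt.inv (h0 s x)).congr_deriv ?_)
  have := h0 s x
  field_simp

variable {σ : ℝ → E3 → ℝ}

/-- Symbol bounds up to the order `N`, uniform in `s ≥ 0`. -/
def BdN (σ : ℝ → E3 → ℝ) (N : ℕ) (m a : ℝ → E3 → ℝ) : Prop :=
  ∀ w : List Ix, w.length ≤ N → ∃ K : ℝ, 0 ≤ K ∧ ∀ s, 0 ≤ s → ∀ x,
    σ s x ^ w.length * |dXw w (a s) x| ≤ K * m s x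

theorem BdN.le {N N' : ℕ} {m a : ℝ → E3 → ℝ} (h : BdN σ N m a) (hN : N' ≤ N) : BdN σ N' m a :=
  fun w hw => h w (hw.trans hN)

theorem BdN.mono {N : ℕ} {m m' a : ℝ → E3 → ℝ} (h : BdN σ N m a) {c : ℝ} (hc : 0 ≤ c)
    (hm : ∀ s, 0 ≤ s → ∀ x, m s x ≤ c * m' s x) : BdN σ N m' a := by
  intro w hw
  obtain ⟨K, hK, h⟩ := h w hw
  refine ⟨K * c, by positivity, fun s hs x => (h s hs x).trans ?_⟩
  rw [mul_assoc]
  exact mul_le_mul_of_nonneg_left (hm s hs x) hK

theorem BdN.dX (hσ : ∀ s x, 0 < σ s x) {N : ℕ} {m a : ℝ → E3 → ℝ} (h : BdN σ (N + 1) m a)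
    (i : Ix) : BdN σ N (fun s x => m s x / σ s x) fun s => dX i (a s) := by
  intro w hw
  obtain ⟨K, hK, h⟩ := h (i :: w) (by simpa using hw)
  refine ⟨K, hK, fun s hs x => ?_⟩
  have h1 := h s hs x
  rw [List.length_cons, dXw_cons, pow_succ] at h1
  rw [← mul_div_assoc, le_div_iff₀ (hσ s x)]
  linarith

theorem bdN_succ (hσ : ∀ s x, 0 < σ s x) {N : ℕ} {m a : ℝ → E3 → ℝ} (h0 : BdN σ 0 m a)
    (h : ∀ i, BdN σ N (fun s x => m s x / σ s x) fun s => dX i (a s)) : BdN σ (N + 1) m a := by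
  intro w hw
  rcases w with _ | ⟨i, w⟩
  · exact h0 [] le_rfl
  · obtain ⟨K, hK, h⟩ := h i w (by simpa using hw)
    refine ⟨K, hK, fun s hs x => ?_⟩
    have h1 := h s hs x
    rw [← mul_div_assoc, le_div_iff₀ (hσ s x)] at h1
    rw [List.length_cons, dXw_cons, pow_succ]
    linarith

theorem bdN_zero {m a : ℝ → E3 → ℝ} {K : ℝ} (hK : 0 ≤ K)
    (h : ∀ s, 0 ≤ s → ∀ x, |a s x| ≤ K * m s x) : BdN σ 0 m a := by
  intro w hw
  obtain rfl : w = [] := List.length_eq_zero_iff.1 (Nat.le_zero.1 hw)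
  exact ⟨K, hK, fun s hs x => by simpa using h s hs x⟩

theorem BdN.abs_le {N : ℕ} {m a : ℝ → E3 → ℝ} (h : BdN σ N m a) :
    ∃ K : ℝ, 0 ≤ K ∧ ∀ s, 0 ≤ s → ∀ x, |a s x| ≤ K * m s x := by
  obtain ⟨K, hK, h⟩ := h [] (Nat.zero_le _)
  exact ⟨K, hK, fun s hs x => by simpa using h s hs x⟩

theorem BdN.add (hσ : ∀ s x, 0 < σ s x) {N : ℕ} {m a b : ℝ → E3 → ℝ} (sa : SmC a) (sb : SmC b)
    (ha : BdN σ N m a) (hb : BdN σ N m b) : BdN σ N m fun s x => a s x + b s x := by
  intro w hw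
  obtain ⟨K, hK, ha⟩ := ha w hw
  obtain ⟨L, hL, hb⟩ := hb w hw
  refine ⟨K + L, by positivity, fun s hs x => ?_⟩
  have h1 := ha s hs x
  have h2 := hb s hs x
  rw [dXw_add (sa.slice s) (sb.slice s)]
  have h3 := mul_le_mul_of_nonneg_left (abs_add_le (dXw w (a s) x) (dXw w (b s) x))
    (pow_pos (hσ s x) w.length).le
  linarith

theorem BdN.const_mul {N : ℕ} {m a : ℝ → E3 → ℝ} (sa : SmC a) (ha : BdN σ N m a) (c : ℝ) :
    BdN σ N m fun s x => c * a s x := by
  intro w hw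
  obtain ⟨K, hK, ha⟩ := ha w hw
  refine ⟨|c| * K, by positivity, fun s hs x => ?_⟩
  have h1 := mul_le_mul_of_nonneg_left (ha s hs x) (abs_nonneg c)
  have h2 : dXw w (fun x => c * a s x) x = c * dXw w (a s) x :=
    congrFun (dXw_const_smul (sa.slice s) c w) x
  rw [h2, abs_mul]
  linarith

theorem BdN.mul (hσ : ∀ s x, 0 < σ s x) (N : ℕ) : ∀ {m m' a b : ℝ → E3 → ℝ}, SmC a → SmC b →
    BdN σ N m a → BdN σ N m' b → BdN σ N (fun s x => m s x * m' s x) fun s x => a s x * b s x := by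
  have h0 : ∀ {N : ℕ} {m m' a b : ℝ → E3 → ℝ}, BdN σ N m a → BdN σ N m' b →
      BdN σ 0 (fun s x => m s x * m' s x) fun s x => a s x * b s x := by
    intro N m m' a b ha hb
    obtain ⟨K, hK, ha⟩ := ha.abs_le
    obtain ⟨L, hL, hb⟩ := hb.abs_le
    refine bdN_zero (K := K * L) (by positivity) fun s hs x => ?_
    rw [abs_mul]
    calc |a s x| * |b s x| ≤ (K * m s x) * (L * m' s x) :=
          mul_le_mul (ha s hs x) (hb s hs x) (abs_nonneg _) ((abs_nonneg _).trans (ha s hs x))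
      _ = _ := by ring
  induction N with
  | zero => exact fun _ _ ha hb => h0 ha hb
  | succ N ih =>
    intro m m' a b sa sb ha hb
    refine bdN_succ hσ (h0 ha hb) fun i => ?_
    have e : (fun s => BoltzC.dX i fun x => a s x * b s x) =
        fun s x => BoltzC.dX i (a s) x * b s x + a s x * BoltzC.dX i (b s) x :=
      funext fun s => dX_mul (sa.dif s) (sb.dif s) i
    rw [e]
    refine BdN.add hσ ((sa.dX i).mul sb) (sa.mul (sb.dX i))
      ((ih (sa.dX i) sb (ha.dX hσ i) (hb.le N.le_succ)).mono zero_le_one fun s _ x => ?_)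
      ((ih sa (sb.dX i) (ha.le N.le_succ) (hb.dX hσ i)).mono zero_le_one fun s _ x => ?_)
    · exact le_of_eq (by ring)
    · exact le_of_eq (by ring)

theorem BdN.inv (hσ : ∀ s x, 0 < σ s x) {m a : ℝ → E3 → ℝ} (sa : SmC a) (hm : ∀ s x, 0 < m s x)
    (h0 : ∀ s x, 0 < a s x) {c : ℝ} (hc : 0 < c) (hge : ∀ s, 0 ≤ s → ∀ x, c * m s x ≤ a s x)
    (N : ℕ) : BdN σ N m a → BdN σ N (fun s x => (m s x)⁻¹) fun s x => (a s x)⁻¹ := by
  have h1 : BdN σ 0 (fun s x => (m s x)⁻¹) fun s x => (a s x)⁻¹ := by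
    refine bdN_zero (K := c⁻¹) (by positivity) fun s hs x => ?_
    rw [abs_of_pos (inv_pos.2 (h0 s x)), ← mul_inv]
    exact inv_anti₀ (mul_pos hc (hm s x)) (hge s hs x)
  have si := smC_inv sa fun s x => (h0 s x).ne'
  induction N with
  | zero => exact fun _ => h1
  | succ N ih =>
    intro ha
    refine bdN_succ hσ h1 fun i => ?_
    have e : (fun s => BoltzC.dX i fun x => (a s x)⁻¹) =
        fun s x => (-1 : ℝ) * (BoltzC.dX i (a s) x * ((a s x)⁻¹ * (a s x)⁻¹)) :=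
      funext fun s => dX_inv (sa.dif s) (fun x => (h0 s x).ne') i
    rw [e]
    have h2 := ih (ha.le N.le_succ)
    refine BdN.const_mul ((sa.dX i).mul (si.mul si)) ((BdN.mul hσ N (sa.dX i) (si.mul si)
      (ha.dX hσ i) (BdN.mul hσ N si si h2 h2)).mono zero_le_one fun s _ x => le_of_eq ?_) _
    have := (hm s x).ne'
    have := (hσ s x).ne'
    field_simp

/-- Smooth periodic symbols of size `m`, uniformly in `s ≥ 0`. -/
structure US (σ m a : ℝ → E3 → ℝ) : Prop where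
  sm : SmC a
  per : ∀ s, Per (a s)
  bd : ∀ N, BdN σ N m a

theorem US.of_sym {m a : ℝ → E3 → ℝ} {K : ℕ → ℝ} (sa : SmC a) (pa : ∀ s, Per (a s))
    (hm : ∀ s x, 0 ≤ m s x) (h : ∀ s, 0 ≤ s → SymBd K 0 (σ s) (m s) (a s)) : US σ m a :=
  ⟨sa, pa, fun _ w _ => ⟨|K w.length|, abs_nonneg _, fun s hs x =>
    (h s hs w (Nat.zero_le _) x).trans (mul_le_mul_of_nonneg_right (le_abs_self _) (hm s x))⟩⟩

theorem US.congr {m a b : ℝ → E3 → ℝ} (h : US σ m a) (e : ∀ s x, a s x = b s x) : US σ m b := by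
  have : a = b := funext fun s => funext (e s)
  exact this ▸ h

theorem US.mono {m m' a : ℝ → E3 → ℝ} (h : US σ m a) {c : ℝ} (hc : 0 ≤ c)
    (hm : ∀ s, 0 ≤ s → ∀ x, m s x ≤ c * m' s x) : US σ m' a :=
  ⟨h.sm, h.per, fun N => (h.bd N).mono hc hm⟩

theorem US.size {m m' a : ℝ → E3 → ℝ} (h : US σ m a) (e : ∀ s x, m s x = m' s x) : US σ m' a :=
  h.mono zero_le_one fun s _ x => by rw [e, one_mul]

theorem US.dX (hσ : ∀ s x, 0 < σ s x) {m a : ℝ → E3 → ℝ} (h : US σ m a) (i : Ix) :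
    US σ (fun s x => m s x / σ s x) fun s => dX i (a s) :=
  ⟨h.sm.dX i, fun s => (h.per s).dX i, fun N => (h.bd (N + 1)).dX hσ i⟩

theorem US.add (hσ : ∀ s x, 0 < σ s x) {m a b : ℝ → E3 → ℝ} (ha : US σ m a) (hb : US σ m b) :
    US σ m fun s x => a s x + b s x :=
  ⟨ha.sm.add hb.sm, fun s => (ha.per s).map₂ (hb.per s) (· + ·),
    fun N => BdN.add hσ ha.sm hb.sm (ha.bd N) (hb.bd N)⟩

theorem US.const_mul {m a : ℝ → E3 → ℝ} (ha : US σ m a) (c : ℝ) : US σ m fun s x => c * a s x :=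
  ⟨ha.sm.const_smul c, fun s => (ha.per s).map (c * ·), fun N => BdN.const_mul ha.sm (ha.bd N) c⟩

theorem US.neg {m a : ℝ → E3 → ℝ} (ha : US σ m a) : US σ m fun s x => -a s x :=
  (ha.const_mul (-1)).congr fun _ _ => by ring

theorem US.sub (hσ : ∀ s x, 0 < σ s x) {m a b : ℝ → E3 → ℝ} (ha : US σ m a) (hb : US σ m b) :
    US σ m fun s x => a s x - b s x :=
  (ha.add hσ hb.neg).congr fun _ _ => by ring

theorem US.sum3 (hσ : ∀ s x, 0 < σ s x) {m : ℝ → E3 → ℝ} {a : Ix → ℝ → E3 → ℝ}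
    (ha : ∀ i, US σ m (a i)) : US σ m fun s x => ∑ i, a i s x := by
  have h : ∀ t : Finset Ix, t.Nonempty → US σ m fun s x => ∑ i ∈ t, a i s x := fun t ht => by
    induction ht using Finset.Nonempty.cons_induction with
    | singleton i => exact (ha i).congr fun _ _ => (sum_singleton (fun i => a i _ _) i).symm
    | cons i t hi _ ih => exact ((ha i).add hσ ih).congr fun _ _ => by rw [sum_cons]
  exact h _ univ_nonempty

theorem US.mul (hσ : ∀ s x, 0 < σ s x) {m m' a b : ℝ → E3 → ℝ} (ha : US σ m a) (hb : US σ m' b) :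
    US σ (fun s x => m s x * m' s x) fun s x => a s x * b s x :=
  ⟨ha.sm.mul hb.sm, fun s => (ha.per s).map₂ (hb.per s) (· * ·),
    fun N => BdN.mul hσ N ha.sm hb.sm (ha.bd N) (hb.bd N)⟩

theorem US.inv (hσ : ∀ s x, 0 < σ s x) {m a : ℝ → E3 → ℝ} (ha : US σ m a) (hm : ∀ s x, 0 < m s x)
    (h0 : ∀ s x, 0 < a s x) {c : ℝ} (hc : 0 < c) (hge : ∀ s, 0 ≤ s → ∀ x, c * m s x ≤ a s x) :
    US σ (fun s x => (m s x)⁻¹) fun s x => (a s x)⁻¹ :=
  ⟨smC_inv ha.sm fun s x => (h0 s x).ne', fun s => (ha.per s).map (·⁻¹),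
    fun N => BdN.inv hσ ha.sm hm h0 hc hge N (ha.bd N)⟩

theorem US.of_time {φ : ℝ → ℝ} (hφ : Continuous φ) (h0 : ∀ s, 0 ≤ φ s) :
    US σ (fun s _ => φ s) fun s _ => φ s := by
  refine ⟨SmC.of_time hφ, fun s => Per.const _, fun N w _ => ⟨1, zero_le_one, fun s _ x => ?_⟩⟩
  by_cases hw : w = []
  · subst hw; simp [abs_of_nonneg (h0 s)]
  · rw [dXw_const w hw]; simpa using h0 s

theorem US.pow (hσ : ∀ s x, 0 < σ s x) {m a : ℝ → E3 → ℝ} (ha : US σ m a) (k : ℕ) :
    US σ (fun s x => m s x ^ k) fun s x => a s x ^ k := by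
  induction k with
  | zero => simpa using US.of_time (σ := σ) (φ := fun _ => 1) continuous_const fun _ => zero_le_one
  | succ k ih => simpa only [pow_succ] using ih.mul hσ ha

theorem smD_pow {c c' : ℝ → E3 → ℝ} (hc : SmD c c') (k : ℕ) :
    SmD (fun s x => c s x ^ (k + 1)) fun s x => ((k : ℝ) + 1) * (c s x ^ k * c' s x) := by
  induction k with
  | zero => simpa using hc
  | succ k ih =>
    refine ((ih.mul hc).congr fun s x => (pow_succ _ _).symm).congr_deriv fun s x => ?_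
    push_cast
    ring

/-! ### Schwartz-valued symbols -/

/-- Finite sums of symbols of size `m` times fixed Schwartz functions. -/
inductive VS (σ m : ℝ → E3 → ℝ) : (ℝ → E3 → SV) → Prop
  | base (a : ℝ → E3 → ℝ) (Φ : SV) (ha : US σ m a) : VS σ m fun s x => a s x • Φ
  | add (G H : ℝ → E3 → SV) (hG : VS σ m G) (hH : VS σ m H) : VS σ m fun s x => G s x + H s x

theorem VS.congr {m : ℝ → E3 → ℝ} {G H : ℝ → E3 → SV} (h : VS σ m G) (e : ∀ s x, G s x = H s x) :
    VS σ m H := by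
  have : G = H := funext fun s => funext (e s)
  exact this ▸ h

theorem VS.sm {m : ℝ → E3 → ℝ} {G : ℝ → E3 → SV} (h : VS σ m G) : SmC G := by
  induction h with
  | base a Φ ha => exact ha.sm.smul_const Φ
  | add G H _ _ hG hH => exact hG.add hH

theorem VS.per {m : ℝ → E3 → ℝ} {G : ℝ → E3 → SV} (h : VS σ m G) (s : ℝ) : Per (G s) := by
  induction h with
  | base a Φ ha => exact (ha.per s).map (· • Φ)
  | add G H _ _ hG hH => exact hG.map₂ hH (· + ·)

theorem VS.mono {m m' : ℝ → E3 → ℝ} {G : ℝ → E3 → SV} (h : VS σ m G) {c : ℝ} (hc : 0 ≤ c)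
    (hm : ∀ s, 0 ≤ s → ∀ x, m s x ≤ c * m' s x) : VS σ m' G := by
  induction h with
  | base a Φ ha => exact VS.base a Φ (ha.mono hc hm)
  | add G H _ _ hG hH => exact VS.add G H hG hH

theorem VS.clm {m : ℝ → E3 → ℝ} {G : ℝ → E3 → SV} (h : VS σ m G) (A : SV →L[ℝ] SV) :
    VS σ m fun s x => A (G s x) := by
  induction h with
  | base a Φ ha => exact (VS.base a (A Φ) ha).congr fun _ _ => (map_smul A _ _).symm
  | add G H _ _ hG hH => exact (VS.add _ _ hG hH).congr fun _ _ => (map_add A _ _).symm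

theorem VS.neg {m : ℝ → E3 → ℝ} {G : ℝ → E3 → SV} (h : VS σ m G) : VS σ m fun s x => -G s x :=
  h.clm (-ContinuousLinearMap.id ℝ SV)

theorem VS.sum3 {m : ℝ → E3 → ℝ} {G : Ix → ℝ → E3 → SV} (h : ∀ i, VS σ m (G i)) :
    VS σ m fun s x => ∑ i, G i s x := by
  have h' : ∀ t : Finset Ix, t.Nonempty → VS σ m fun s x => ∑ i ∈ t, G i s x := fun t ht => by
    induction ht using Finset.Nonempty.cons_induction with
    | singleton i => exact (h i).congr fun _ _ => (sum_singleton (fun i => G i _ _) i).symm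
    | cons i t hi _ ih => exact (VS.add _ _ (h i) ih).congr fun _ _ => by rw [sum_cons]
  exact h' _ univ_nonempty

theorem VS.smul (hσ : ∀ s x, 0 < σ s x) {m m' c : ℝ → E3 → ℝ} {G : ℝ → E3 → SV} (hc : US σ m' c)
    (h : VS σ m G) : VS σ (fun s x => m' s x * m s x) fun s x => c s x • G s x := by
  induction h with
  | base a Φ ha => exact (VS.base _ Φ (hc.mul hσ ha)).congr fun _ _ => (smul_smul _ _ _).symm
  | add G H _ _ hG hH => exact (VS.add _ _ hG hH).congr fun _ _ => (smul_add _ _ _).symm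

theorem VS.dX (hσ : ∀ s x, 0 < σ s x) {m : ℝ → E3 → ℝ} {G : ℝ → E3 → SV} (h : VS σ m G)
    (i : Ix) : VS σ (fun s x => m s x / σ s x) fun s => dX i (G s) := by
  induction h with
  | base a Φ ha =>
    exact (VS.base _ Φ (ha.dX hσ i)).congr fun s x =>
      (congrFun (dX_smul_const (ha.sm.dif s) Φ i) x).symm
  | add G H hG' hH' hG hH =>
    exact (VS.add _ _ hG hH).congr fun s x =>
      (congrFun (dX_add (hG'.sm.dif s) (hH'.sm.dif s) i) x).symm

lemma nA_smul' (q : ℕ) (c : ℝ) (f : SV) : nA q (c • f) = c ^ 2 * nA q f := by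
  simp only [nA, map_smul, LinearMap.smul_apply, smul_eq_mul, Finset.mul_sum]
  exact Finset.sum_congr rfl fun _ _ => by ring

theorem VS.nA_le (hσ : ∀ s x, 0 < σ s x) {m : ℝ → E3 → ℝ} {G : ℝ → E3 → SV} (h : VS σ m G)
    (w : List Ix) (q : ℕ) : ∃ K : ℝ, 0 ≤ K ∧ ∀ s, 0 ≤ s → ∀ x,
      σ s x ^ (2 * w.length) * nA q (dXw w (G s) x) ≤ K * m s x ^ 2 := by
  induction h with
  | base a Φ ha =>
    obtain ⟨K, hK, h⟩ := ha.bd _ w le_rfl
    have h0 := nA_nonneg q Φ
    refine ⟨K ^ 2 * nA q Φ, by positivity, fun s hs x => ?_⟩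
    rw [dXw_smul_const (ha.sm.slice s), nA_smul']
    have h1 := pow_le_pow_left₀ (mul_nonneg (pow_pos (hσ s x) _).le (abs_nonneg _)) (h s hs x) 2
    rw [mul_pow, mul_pow, sq_abs, ← pow_mul, mul_comm w.length] at h1
    have h2 := mul_le_mul_of_nonneg_right h1 h0
    linarith
  | add G H hG' hH' hG hH =>
    obtain ⟨K, hK, hG⟩ := hG
    obtain ⟨L, hL, hH⟩ := hH
    refine ⟨2 * K + 2 * L, by positivity, fun s hs x => ?_⟩
    rw [dXw_add (hG'.sm.slice s) (hH'.sm.slice s)]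
    have h1 := mul_le_mul_of_nonneg_left (nA_add_le q (dXw w (G s) x) (dXw w (H s) x))
      (pow_pos (hσ s x) (2 * w.length)).le
    have h2 := hG s hs x
    have h3 := hH s hs x
    linarith

theorem VS.bb_le (hσ : ∀ s x, 0 < σ s x) {m : ℝ → E3 → ℝ} {G : ℝ → E3 → SV} (h : VS σ m G)
    (n : ℕ) : ∃ C : ℝ, 0 < C ∧ ∀ s, 0 ≤ s → ∀ x,
      |bb n 1 (σ s) (G s) (G s) x| ≤ C * m s x ^ 2 := by
  choose K hK0 hK using h.nA_le hσ
  set C := ∑ j ∈ range (n + 1), ∑ q ∈ range (n + 1 - j), ∑ u ∈ words j, K u q with hC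
  have hC0 : 0 ≤ C := sum_nonneg fun _ _ => sum_nonneg fun _ _ => sum_nonneg fun _ _ => hK0 _ _
  refine ⟨C + 1, by positivity, fun s hs x => ?_⟩
  have e : bb n 1 (σ s) (G s) (G s) x = ∑ j ∈ range (n + 1), ∑ q ∈ range (n + 1 - j),
      ∑ u ∈ words j, σ s x ^ (2 * u.length) * nA q (dXw u (G s) x) := by
    simp only [bb, lev, one_pow, one_mul, ← nA_eq_ip_RR, mul_sum]
    refine sum_congr rfl fun j _ => sum_congr rfl fun q _ => sum_congr rfl fun u hu => ?_
    rw [mem_words.1 hu]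
  rw [e, abs_of_nonneg (sum_nonneg fun _ _ => sum_nonneg fun _ _ => sum_nonneg fun _ _ =>
    mul_nonneg (pow_pos (hσ s x) _).le (nA_nonneg _ _))]
  calc _ ≤ C * m s x ^ 2 := by
        simp only [hC, sum_mul]
        exact sum_le_sum fun j _ => sum_le_sum fun q _ => sum_le_sum fun u _ => hK u q s hs x
    _ ≤ _ := by nlinarith [sq_nonneg (m s x)]

/-- The transport operator acting on a symbol. -/
theorem VS.tr (hσ : ∀ s x, 0 < σ s x) {m μ : ℝ → E3 → ℝ} {G : ℝ → E3 → SV} (h : VS σ m G)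
    {F : ℝ → Fld} (hu : ∀ i, US σ (fun s x => μ s x * σ s x) fun s => (F s).u i)
    (hc : US σ (fun s x => μ s x * σ s x) fun s => (F s).c)
    (h0 : ∀ j, US σ μ fun s => (F s).b0 j) (h1 : ∀ i j, US σ μ fun s => (F s).b1 i j)
    (h2 : ∀ i, US σ μ fun s => (F s).b2 i) :
    VS σ (fun s x => μ s x * m s x) fun s x => (F s).tr (G s) x := by
  have e : ∀ s, 0 ≤ s → ∀ x, μ s x * σ s x * (m s x / σ s x) ≤ 1 * (μ s x * m s x) := by
    intro s _ x
    have := (hσ s x).ne'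
    exact le_of_eq (by field_simp)
  exact VS.add _ _ (VS.sum3 fun i => VS.add _ _
      (((h.dX hσ i).smul hσ (hu i)).mono zero_le_one e)
      ((((h.dX hσ i).clm (mulV i)).smul hσ hc).mono zero_le_one e))
    (VS.add _ _ (VS.add _ _ (VS.sum3 fun j => (h.clm (ap j)).smul hσ (h0 j))
      (VS.sum3 fun i => VS.sum3 fun j => ((h.clm (ap j)).clm (mulV i)).smul hσ (h1 i j)))
      (VS.sum3 fun i => VS.sum3 fun j =>
        (((h.clm (ap j)).clm (mulV j)).clm (mulV i)).smul hσ (h2 i))).neg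

end Pool.Agent.BoltzD.Corr2

end
end MrgPart0

-- ======== part 1: formerly Pool.Agent.BoltzD.Corr2.Size
section MrgPart1

/-!
Sizes `exp (-t s) Lam ^ p` of the symbols built from the background, and energy bounds.
-/

set_option autoImplicit false

open Pool.Agent.BoltzC Finset Filter Topology

noncomputable section

namespace Pool.Agent.BoltzD.Corr2

variable [Dim]

lemma exists_lattice_box (x : E3) :
    ∃ n : Ix → ℤ, box (1 / 2) (x + ∑ i, (n i : ℝ) • ev i) := by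
  obtain ⟨n, hn⟩ := exists_lattice_mem_cube (WithLp.toLp 2 fun _ => -(1 / 2 : ℝ)) x
  refine ⟨n, fun i => ?_⟩
  have h := hn i
  simp only [Set.mem_Ioc] at h
  rw [abs_le]
  constructor <;> linarith [h.1, h.2]

lemma rho2_nonneg (c : Cut) (x : E3) : 0 ≤ c.rho2 x := by
  obtain ⟨n, hn⟩ := exists_lattice_box x
  rw [← c.per_rho2.add_lattice n x]
  exact le_trans (by positivity) (c.rho2_ge _ hn)

variable {B : BgD}

lemma Lam_pos (s : ℝ) (x : E3) : 0 < B.Lam s x :=
  Real.sqrt_pos.2 (add_pos_of_pos_of_nonneg (Real.exp_pos _) (rho2_nonneg _ x))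

lemma sig_pos (s : ℝ) (x : E3) : 0 < B.sig s x :=
  add_pos_of_pos_of_nonneg (Real.exp_pos _) (Real.sqrt_nonneg _)

lemma continuous_Lam (s : ℝ) : Continuous (B.Lam s) :=
  (continuous_const.add B.cut.cd_rho2.continuous).sqrt

lemma nu_Lam_le (hB : B.Ok) (s : ℝ) (x : E3) : B.nu * B.Lam s x ≤ B.sig s x := by
  have h0 := hB.nu_pos
  have h1 : B.nu ^ 2 ≤ 1 := pow_le_one₀ h0.le hB.nu_le
  have h2 := Real.exp_pos (-2 * s)
  have h3 : B.nu * B.Lam s x ≤ √(Real.exp (-2 * s) + B.nu ^ 2 * B.cut.rho2 x) := by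
    rw [BgD.Lam, ← Real.sqrt_sq h0.le, ← Real.sqrt_mul (sq_nonneg _), Real.sqrt_sq h0.le]
    exact Real.sqrt_le_sqrt (by nlinarith)
  have h4 := Real.exp_pos (-s)
  unfold BgD.sig
  linarith

/-- The sizes. -/
def P (B : BgD) (t p s : ℝ) (x : E3) : ℝ := Real.exp (-t * s) * B.Lam s x ^ p

lemma P_pos (t p s : ℝ) (x : E3) : 0 < P B t p s x :=
  mul_pos (Real.exp_pos _) (Real.rpow_pos_of_pos (Lam_pos s x) _)

lemma P_mul (t p t' p' s : ℝ) (x : E3) :
    P B t p s x * P B t' p' s x = P B (t + t') (p + p') s x := by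
  unfold P
  rw [Real.rpow_add (Lam_pos s x), neg_add, add_mul, Real.exp_add]
  ring

lemma P_zero (s : ℝ) (x : E3) : P B 0 0 s x = 1 := by simp [P]

lemma P_inv (t p s : ℝ) (x : E3) : (P B t p s x)⁻¹ = P B (-t) (-p) s x := by
  refine inv_eq_of_mul_eq_one_right ?_
  rw [P_mul, add_neg_cancel, add_neg_cancel, P_zero]

lemma P_pow (t p s : ℝ) (x : E3) (k : ℕ) : P B t p s x ^ k = P B (k * t) (k * p) s x := by
  induction k with
  | zero => simp [P_zero]
  | succ k ih => rw [pow_succ, ih, P_mul]; congr 1 <;> push_cast <;> ring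

lemma P_succ (t p s : ℝ) (x : E3) : P B t (p + 1) s x = P B t p s x * B.Lam s x := by
  unfold P
  rw [Real.rpow_add_one (Lam_pos s x).ne', mul_assoc]

lemma P_succ_le (hB : B.Ok) (t p s : ℝ) (x : E3) :
    P B t (p + 1) s x ≤ B.nu⁻¹ * (P B t p s x * B.sig s x) := by
  rw [P_succ, le_inv_mul_iff₀ hB.nu_pos, mul_left_comm]
  exact mul_le_mul_of_nonneg_left (nu_Lam_le hB s x) (P_pos _ _ _ _).le

/-- Symbols of size `exp (-t s) Lam ^ p`. -/
def Sy (B : BgD) (t p : ℝ) (a : ℝ → E3 → ℝ) : Prop := US B.sig (P B t p) a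

theorem Sy.cast {t p t' p' : ℝ} {a : ℝ → E3 → ℝ} (h : Sy B t p a) (ht : t = t') (hp : p = p') :
    Sy B t' p' a := ht ▸ hp ▸ h

theorem Sy.mul {t p t' p' : ℝ} {a b : ℝ → E3 → ℝ} (ha : Sy B t p a) (hb : Sy B t' p' b) :
    Sy B (t + t') (p + p') fun s x => a s x * b s x :=
  (US.mul sig_pos ha hb).size fun _ _ => P_mul _ _ _ _ _ _

theorem Sy.pow {t p : ℝ} {a : ℝ → E3 → ℝ} (ha : Sy B t p a) (k : ℕ) :
    Sy B (k * t) (k * p) fun s x => a s x ^ k :=
  (US.pow sig_pos ha k).size fun _ _ => P_pow _ _ _ _ _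

theorem Sy.add {t p : ℝ} {a b : ℝ → E3 → ℝ} (ha : Sy B t p a) (hb : Sy B t p b) :
    Sy B t p fun s x => a s x + b s x := US.add sig_pos ha hb

theorem Sy.const_mul {t p : ℝ} {a : ℝ → E3 → ℝ} (ha : Sy B t p a) (c : ℝ) :
    Sy B t p fun s x => c * a s x := US.const_mul ha c

theorem Sy.sum3 {t p : ℝ} {a : Ix → ℝ → E3 → ℝ} (ha : ∀ i, Sy B t p (a i)) :
    Sy B t p fun s x => ∑ i, a i s x := US.sum3 sig_pos ha

theorem Sy.dX (hB : B.Ok) {t p : ℝ} {a : ℝ → E3 → ℝ} (ha : Sy B t p a) (i : Ix) :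
    Sy B t (p - 1) fun s => dX i (a s) := by
  refine (US.dX sig_pos ha i).mono (inv_pos.2 hB.nu_pos).le fun s _ x => ?_
  have h := P_succ_le hB t (p - 1) s x
  rw [sub_add_cancel] at h
  rwa [div_le_iff₀ (sig_pos s x), mul_assoc]

theorem sy_exp : Sy B B.r 0 fun s _ => Real.exp (-B.r * s) :=
  (US.of_time (by fun_prop) fun _ => (Real.exp_pos _).le).size fun _ _ => by simp [P]

lemma per_dS {a : ℝ → E3 → ℝ} (h : ∀ s, Per (a s)) (s : ℝ) : Per (dS a s) := fun i x => by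
  simp only [dS, fun t => h t i x]

/-- Fields of the size of the background, with the gain `mu` for the time derivative. -/
structure Bk (B : BgD) (a : ℝ → E3 → ℝ) : Prop where
  smd : SmD a (dS a)
  sy : Sy B 0 (1 - B.r) a
  sy' : Sy B B.r (1 - 2 * B.r) (dS a)

lemma bk_of_sym {a : ℝ → E3 → ℝ} {K : ℕ → ℝ} (h : SmD a (dS a)) (hp : ∀ s, Per (a s))
    (h1 : ∀ s, 0 ≤ s → SymBd K 0 (B.sig s) (fun x => B.Lam s x ^ (1 - B.r)) (a s))
    (h2 : ∀ s, 0 ≤ s →
      SymBd K 0 (B.sig s) (fun x => B.mu s x * B.Lam s x ^ (1 - B.r)) (dS a s)) : Bk B a := by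
  have e1 : ∀ s x, B.Lam s x ^ (1 - B.r) = P B 0 (1 - B.r) s x := fun s x => by simp [P]
  have e2 : ∀ s x, B.mu s x * B.Lam s x ^ (1 - B.r) = P B B.r (1 - 2 * B.r) s x := fun s x => by
    rw [e1, show B.mu s x = P B B.r (-B.r) s x from rfl, P_mul]
    congr 1 <;> ring
  simp only [e1] at h1
  simp only [e2] at h2
  exact ⟨h, US.of_sym h.sm hp (fun s x => (P_pos _ _ s x).le) h1,
    US.of_sym h.sm' (per_dS hp) (fun s x => (P_pos _ _ s x).le) h2⟩

lemma bk_u (hB : B.Ok) (i : Ix) : Bk B (B.u i) := by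
  obtain ⟨K, hK⟩ := hB.sym
  exact bk_of_sym (hB.sm_u i) (hB.per_u i) (fun s hs => (hK s hs).1 i)
    fun s hs => (hK s hs).2.2.1 i

lemma bk_C (hB : B.Ok) : Bk B B.C := by
  obtain ⟨K, hK⟩ := hB.sym
  exact bk_of_sym hB.sm_C hB.per_C (fun s hs => (hK s hs).2.1) fun s hs => (hK s hs).2.2.2

lemma sy_invC (hB : B.Ok) : Sy B 0 (B.r - 1) fun s x => (B.C s x)⁻¹ := by
  obtain ⟨c, hc, h⟩ := hB.C_ge
  refine (US.inv sig_pos (bk_C hB).sy (P_pos _ _) hB.C_pos hc fun s hs x => ?_).size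
    fun s x => ?_
  · simpa [P] using h s hs x
  · rw [P_inv]; congr 1 <;> ring

lemma Bk.exp_mul {a : ℝ → E3 → ℝ} (h : Bk B a) :
    Sy B B.r (-B.r + 1) fun s x => Real.exp (-B.r * s) * a s x :=
  (sy_exp.mul h.sy).cast (by ring) (by ring)

lemma Bk.exp_dX (hB : B.Ok) {a : ℝ → E3 → ℝ} (h : Bk B a) (i : Ix) :
    Sy B B.r (-B.r) fun s x => Real.exp (-B.r * s) * dX i (a s) x :=
  (sy_exp.mul (h.sy.dX hB i)).cast (by ring) (by ring)

lemma Bk.mat (hB : B.Ok) {a : ℝ → E3 → ℝ} (h : Bk B a) : Sy B B.r (1 - 2 * B.r) (B.mat a) :=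
  h.sy'.add (Sy.sum3 fun i => ((bk_u hB i).exp_mul.mul (h.sy.dX hB i)).cast (by ring) (by ring))

lemma Bk.mat_div (hB : B.Ok) {a : ℝ → E3 → ℝ} (h : Bk B a) :
    Sy B B.r (-B.r) fun s x => B.mat a s x * (B.C s x)⁻¹ :=
  ((h.mat hB).mul (sy_invC hB)).cast (by ring) (by ring)

/-- The transport operator of the background gains the factor `mu`. -/
theorem vs_tr (hB : B.Ok) {t p : ℝ} {G : ℝ → E3 → SV} (h : VS B.sig (P B t p) G) :
    VS B.sig (P B (B.r + t) (p - B.r)) fun s x => (B.fld s).tr (G s) x := by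
  have hn := (inv_pos.2 hB.nu_pos).le
  refine (h.tr sig_pos (μ := P B B.r (-B.r)) (F := B.fld)
    (fun i => US.mono (bk_u hB i).exp_mul hn fun s _ x => P_succ_le hB _ _ s x)
    (US.mono (bk_C hB).exp_mul hn fun s _ x => P_succ_le hB _ _ s x)
    (fun j => (US.neg ((bk_u hB j).mat_div hB)).congr fun s x => ?_) (fun i j => ?_)
    (fun i => US.neg ((bk_C hB).exp_dX hB i))).mono zero_le_one fun s _ x => le_of_eq ?_
  · simp only [BgD.fld, div_eq_mul_inv, neg_mul]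
  · refine (US.sub sig_pos (US.neg ((bk_u hB j).exp_dX hB i))
      (US.const_mul ((bk_C hB).mat_div hB) (if i = j then 1 else 0))).congr fun s x => ?_
    simp only [BgD.fld, div_eq_mul_inv]
    split_ifs <;> ring
  · rw [P_mul, one_mul]; congr 1; ring

/-- A symbol that vanishes near the lattice lives where `Lam` is bounded below. -/
theorem US.cutoff {m a : ℝ → E3 → ℝ} (h : US B.sig m a) (h0 : ∀ s x, box (1 / 10) x → a s x = 0) :
    US B.sig (fun s x => if 1 / 40 ≤ B.Lam s x then m s x else 0) a := by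
  refine ⟨h.sm, h.per, fun N w hw => ?_⟩
  obtain ⟨K, hK, hb⟩ := h.bd N w hw
  refine ⟨K, hK, fun s hs x => ?_⟩
  split_ifs with hx
  · exact hb s hs x
  obtain ⟨n, hn⟩ := exists_lattice_box x
  set y := x + ∑ i, (n i : ℝ) • ev i with hy
  have h1 : ‖y‖ < 1 / 10 := by
    have h2 := B.cut.rho2_ge y hn
    rw [hy, B.cut.per_rho2.add_lattice n x, ← hy] at h2
    have h3 := (Real.sqrt_lt' (by norm_num)).1 (not_le.1 hx)
    have h4 := Real.exp_pos (-2 * s)
    exact lt_of_pow_lt_pow_left₀ 2 (by norm_num) (by linarith)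
  have h2 : a s =ᶠ[𝓝 y] fun _ => 0 :=
    ((isOpen_lt continuous_norm continuous_const).eventually_mem h1).mono fun z hz =>
      h0 s z fun i => (le_trans (by simpa using PiLp.norm_apply_le z i) (le_of_lt hz))
  rw [← ((h.per s).dXw w).add_lattice n x, ← hy, dXw_congr_ev h2, dXw_zero]
  simp

theorem E_le {m : ℝ → E3 → ℝ} {G : ℝ → E3 → SV} (h : VS B.sig m G) (n : ℕ) :
    ∃ C : ℝ, 0 < C ∧ ∀ a s, 0 ≤ s → ∀ ψ : E3 → ℝ, Continuous ψ →
      (∀ x, B.om a s x * m s x ^ 2 ≤ ψ x) → B.E n 1 a s (G s) (G s) ≤ C * tint ψ := by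
  obtain ⟨C, hC, hb⟩ := h.bb_le sig_pos n
  refine ⟨C, hC, fun a s hs ψ hψ hle => ?_⟩
  rw [← tint_const_mul]
  refine (le_abs_self _).trans (abs_tint_le_of_abs_le (continuous_const.mul hψ) fun x => ?_)
  have h0 : 0 < B.om a s x := mul_pos (Real.exp_pos _) (Real.rpow_pos_of_pos (Lam_pos s x) _)
  rw [abs_mul, abs_of_pos h0]
  have h1 := mul_le_mul_of_nonneg_left (hb s hs x) h0.le
  have h2 := mul_le_mul_of_nonneg_left (hle x) hC.le
  linarith

lemma om_mul_P (a t p s : ℝ) (x : E3) : B.om a s x * P B t p s x ^ 2 =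
    Real.exp (-(2 * a + 2 * t) * s) * B.Lam s x ^ (-(dd : ℝ) - (2 * a - 2 * p)) := by
  have e : B.om a s x = P B (2 * a) (-(dd : ℝ) - 2 * a) s x := by
    simp only [BgD.om, P, neg_mul]
  rw [e, sq, P_mul, P_mul, P]
  congr 2 <;> ring

theorem E_le_P {t p : ℝ} {G : ℝ → E3 → SV} (h : VS B.sig (P B t p) G) (n : ℕ) :
    ∃ C : ℝ, 0 < C ∧ ∀ a s, 0 ≤ s → B.E n 1 a s (G s) (G s) ≤ C * (Real.exp (-(2 * a + 2 * t) * s) *
      tint fun x => B.Lam s x ^ (-(dd : ℝ) - (2 * a - 2 * p))) := by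
  obtain ⟨C, hC, hb⟩ := E_le h n
  refine ⟨C, hC, fun a s hs => ?_⟩
  rw [← tint_const_mul]
  exact hb a s hs _ (continuous_const.mul ((continuous_Lam s).rpow_const
    fun x => Or.inl (Lam_pos s x).ne')) fun x => (om_mul_P a t p s x).le

theorem E_le_cutoff (hB : B.Ok) {G : ℝ → E3 → SV}
    (h : VS B.sig (fun s x => if 1 / 40 ≤ B.Lam s x then P B B.r (-B.r) s x else 0) G) (n : ℕ) :
    ∃ C : ℝ, 0 < C ∧ ∀ a s, 0 ≤ s → 0 ≤ a → a ≤ B.eta →
      B.E n 1 a s (G s) (G s) ≤ C * Real.exp (-2 * (B.r + a) * s) := by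
  obtain ⟨C, hC, hb⟩ := E_le h n
  obtain ⟨q, hq⟩ : ∃ q : ℝ, q = -(dd : ℝ) - (2 * B.eta - 2 * -B.r) := ⟨_, rfl⟩
  have h6 : (0 : ℝ) < (1 / 40) ^ q := by positivity
  refine ⟨C * (1 / 40) ^ q, by positivity, fun a s hs ha ha' => ?_⟩
  have he := Real.exp_pos (-2 * (B.r + a) * s)
  refine (hb a s hs (fun _ => (1 / 40) ^ q * Real.exp (-2 * (B.r + a) * s))
    continuous_const fun x => ?_).trans (le_of_eq (by rw [tint_const]; ring))
  split_ifs with hx
  · rw [om_mul_P, mul_comm, show -(2 * a + 2 * B.r) * s = -2 * (B.r + a) * s by ring]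
    have h1 := hB.one_lt_r
    have h2 := dr_pos
    refine mul_le_mul_of_nonneg_right ((Real.rpow_le_rpow_of_nonpos (by norm_num) hx
      (by linarith)).trans ?_) he.le
    exact Real.rpow_le_rpow_of_exponent_ge (by norm_num) (by norm_num) (by linarith)
  · simpa using (mul_pos h6 he).le

lemma Lam_le {s : ℝ} (hs : 0 ≤ s) (x : E3) : B.Lam s x ≤ dd + 1 := by
  have h1 : Real.exp (-2 * s) ≤ 1 := Real.exp_le_one_iff.2 (by linarith)
  have h2 := dr_pos
  exact Real.sqrt_le_iff.2 ⟨by linarith, by nlinarith [B.cut.rho2_le x]⟩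

/-- The exponent of `Lam` may be lowered. -/
theorem VS.lower {t p q : ℝ} {G : ℝ → E3 → SV} (h : VS B.sig (P B t p) G) (hq : q ≤ p) :
    VS B.sig (P B t q) G := by
  have h2 := dr_pos
  refine h.mono (c := (dd + 1) ^ (p - q)) (by positivity) fun s hs x => ?_
  have e : P B t p s x = B.Lam s x ^ (p - q) * P B t q s x := by
    rw [P, P, mul_left_comm, ← Real.rpow_add (Lam_pos s x), sub_add_cancel]
  rw [e]
  exact mul_le_mul_of_nonneg_right
    (Real.rpow_le_rpow (Lam_pos s x).le (Lam_le hs x) (by linarith)) (P_pos _ _ _ _).le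

end Pool.Agent.BoltzD.Corr2

end
end MrgPart1

-- ======== part 2: formerly Pool.Agent.BoltzD.Corr2.Core
section MrgPart2

/-!
Module MC2: the corrector, given the two integral bounds for powers of `Lam`.
-/

set_option autoImplicit false

open Pool.Agent.BoltzC Finset

noncomputable section

namespace Pool.Agent.BoltzD.Corr2

variable [Dim]

/-- `(V_i V_j - δ_ij |V|^2 / d) sqM`. -/
def SA (i j : Ix) : SV := ap i (ap j sqMS) - (if i = j then (dd : ℝ)⁻¹ else 0) • e4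

/-- `V_i (|V|^2 - (d + 2)) sqM`. -/
def SB (i : Ix) : SV := ap i e4

lemma SA_mem (i j : Ix) : SA i j ∈ HP 3 :=
  HP_mono (by norm_num : 2 ≤ 3) (Submodule.sub_mem _ (ap_mem i (ap_mem j (sqMS_mem 0)))
    (Submodule.smul_mem _ _ e4_mem))

lemma SB_mem (i : Ix) : SB i ∈ HP 3 := ap_mem i e4_mem

lemma PP_eq_zero {f : SV} (h0 : ip sqMS f = 0) (h1 : ∀ k, ip (ap k sqMS) f = 0)
    (h2 : ip e4 f = 0) : PP f = 0 := by
  refine PP_eq_zero_iff.2 fun a => ?_
  rcases a with _ | _ | k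
  exacts [h0, h2, h1 k]

lemma PP_SA (i j : Ix) : PP (SA i j) = 0 := by
  refine PP_eq_zero ?_ (fun k => ?_) ?_
  · rw [SA, map_sub, map_smul, ip_sqMS_e4, ip_sqMS_ap, smul_zero, sub_zero]
  · rw [SA, map_sub, map_smul, ip_ap_e4, ← ip_am, am_ap_sqMS, map_smul, LinearMap.smul_apply,
      ip_sqMS_ap]
    simp
  · rw [SA, map_sub, map_smul, ip_e4_e4, ← ip_am, am_e4, map_smul, LinearMap.smul_apply,
      ip_ap_ap_sqMS]
    split_ifs
    · have := dr_ne
      simp only [smul_eq_mul]; field_simp; ring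
    · simp

lemma PP_SB (i : Ix) : PP (SB i) = 0 := by
  refine PP_eq_zero (ip_sqMS_ap _ _) (fun k => ?_) ?_
  · rw [SB, ← ip_am, am_ap_sqMS, map_smul, LinearMap.smul_apply, ip_sqMS_e4, smul_zero]
  · rw [SB, ← ip_am, am_e4, map_smul, LinearMap.smul_apply, ip_ap_e4, smul_zero]

lemma SA_eq (i j : Ix) : SA i j = mulV i (mulV j sqMS) -
    (if i = j then (dd : ℝ)⁻¹ else 0) • ∑ k, mulV k (mulV k sqMS) := by
  rw [SA, ap_ap_sqMS, e4_eq]
  split_ifs
  · rw [smul_sub, smul_smul, inv_mul_cancel₀ dr_ne]; abel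
  · simp

lemma SB_eq (i : Ix) :
    SB i = ∑ k, mulV i (mulV k (mulV k sqMS)) - (dd + 2 : ℝ) • mulV i sqMS := by
  have : SB i = mulV i e4 - (2 : ℝ) • mulV i sqMS := by
    rw [← ap_add_am, am_e4, ap_sqMS, SB]; abel
  rw [this, e4_eq, map_sub, map_sum, map_smul, add_smul]
  abel

lemma src_id (X : Ix → SV) (Y Z : Ix → Ix → SV) (p c : Ix → ℝ) (a : Ix → Ix → ℝ) (q d e : ℝ) :
    ∑ j, (-p j) • X j + ∑ i, ∑ j, (-a i j - if i = j then q else 0) • Y i j
        + ∑ i, ∑ j, (-c i) • Z i j =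
      -(∑ i, ∑ j, a i j • (Y i j - (if i = j then d else 0) • ∑ k, Y k k)
          + ∑ i, c i • (∑ k, Z i k - e • X i))
        + -(∑ j, (p j + e * c j) • X j + ∑ j, (q + d * ∑ i, a i i) • Y j j) := by
  have h1 : ∑ i, a i i • d • ∑ k, Y k k = ∑ j, (d * ∑ i, a i i) • Y j j := by
    rw [← sum_smul, smul_smul, ← smul_sum, mul_comm]
  have h2 : ∀ i, c i • e • X i = (e * c i) • X i := fun i => by rw [smul_smul, mul_comm]
  have h3 : ∀ i, c i • ∑ k, Z i k = ∑ k, c i • Z i k := fun i => smul_sum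
  simp only [sub_smul, neg_smul, add_smul, smul_sub, ite_smul, zero_smul, smul_ite, smul_zero,
    sum_sub_distrib, sum_add_distrib, sum_neg_distrib, sum_ite_eq, mem_univ, if_true, h1, h2, h3]
  abel

variable {B : BgD}

/-- Coefficient of the corrector. -/
def co (B : BgD) (a : ℝ → E3 → ℝ) (i : Ix) (s : ℝ) (x : E3) : ℝ :=
  (B.C s x)⁻¹ ^ (dd + 27 + 1) * dX i (a s) x

/-- Its time derivative. -/
def co' (B : BgD) (a : ℝ → E3 → ℝ) (i : Ix) (s : ℝ) (x : E3) : ℝ :=
  (((dd + 27 : ℕ) : ℝ) + 1) * ((B.C s x)⁻¹ ^ (dd + 27) *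
      ((-1 : ℝ) * (dS B.C s x * ((B.C s x)⁻¹ * (B.C s x)⁻¹)))) * dX i (a s) x
    + (B.C s x)⁻¹ ^ (dd + 27 + 1) * dX i (dS a s) x

lemma Bk.smD_co (hB : B.Ok) {a : ℝ → E3 → ℝ} (h : Bk B a) (i : Ix) :
    SmD (co B a i) (co' B a i) :=
  (smD_pow (smD_inv hB.sm_C fun s x => (hB.C_pos s x).ne') (dd + 27)).mul (h.smd.dX i)

lemma Bk.sy_co (hB : B.Ok) {a : ℝ → E3 → ℝ} (h : Bk B a) (i : Ix) :
    Sy B 0 B.kap (co B a i) :=
  (((sy_invC hB).pow (dd + 27 + 1)).mul (h.sy.dX hB i)).cast (by simp)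
    (by simp only [BgD.kap]; push_cast; ring)

lemma Bk.sy_co' (hB : B.Ok) {a : ℝ → E3 → ℝ} (h : Bk B a) (i : Ix) :
    Sy B B.r (B.kap - B.r) (co' B a i) :=
  (((((sy_invC hB).pow (dd + 27)).mul (((bk_C hB).sy'.mul
      ((sy_invC hB).mul (sy_invC hB))).const_mul (-1))).const_mul _).mul (h.sy.dX hB i)).cast
      (by simp) (by simp only [BgD.kap]; push_cast; ring) |>.add
    ((((sy_invC hB).pow (dd + 27 + 1)).mul (h.sy'.dX hB i)).cast (by simp)
      (by simp only [BgD.kap]; push_cast; ring))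

lemma k1_mul_co (hB : B.Ok) (a : ℝ → E3 → ℝ) (i : Ix) (s : ℝ) (x : E3) :
    B.k1 s x * co B a i s x = Real.exp (-B.r * s) * dX i (a s) x := by
  have := (hB.C_pos s x).ne'
  unfold BgD.k1 co
  rw [mul_assoc, ← mul_assoc (B.C s x ^ (dd + 28)), ← mul_pow, mul_inv_cancel₀ this, one_pow,
    one_mul]

/-- Error in the momentum equation. -/
def eu (B : BgD) (j : Ix) (s : ℝ) (x : E3) : ℝ :=
  (B.mat (B.u j) s x + (dd + 2) * (Real.exp (-B.r * s) * B.C s x * dX j (B.C s) x)) * (B.C s x)⁻¹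

/-- Error in the energy equation. -/
def ec (B : BgD) (s : ℝ) (x : E3) : ℝ :=
  (B.mat B.C s x + (dd : ℝ)⁻¹ * (B.C s x * ∑ i, Real.exp (-B.r * s) * dX i (B.u i s) x)) *
    (B.C s x)⁻¹

lemma sy_eu (hB : B.Ok) (j : Ix) : Sy B B.r (-B.r) (eu B j) :=
  ((((bk_u hB j).mat hB).add ((((bk_C hB).exp_mul.mul ((bk_C hB).sy.dX hB j)).cast (by ring)
    (by ring)).const_mul (dd + 2))).mul (sy_invC hB)).cast (by ring) (by ring)

lemma sy_ec (hB : B.Ok) : Sy B B.r (-B.r) (ec B) :=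
  ((((bk_C hB).mat hB).add ((((bk_C hB).sy.mul (Sy.sum3 fun i => (bk_u hB i).exp_dX hB i)).cast
    (by ring) (by ring)).const_mul (dd : ℝ)⁻¹)).mul (sy_invC hB)).cast (by ring) (by ring)

/-- The two integral bounds for powers of `Lam`. -/
def LamInt (B : BgD) : Prop :=
  ∀ b : ℝ, 0 < b → (∃ C : ℝ, ∀ s, 0 ≤ s →
      tint (fun x => B.Lam s x ^ (-(dd : ℝ) - b)) ≤ C * Real.exp (b * s)) ∧
    ∃ C : ℝ, ∀ s, 0 ≤ s → tint (fun x => B.Lam s x ^ (-(dd : ℝ) + b)) ≤ C

lemma E_le_exp (hI : LamInt B) {t p a : ℝ} (hp : p < a) {G : ℝ → E3 → SV}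
    (h : VS B.sig (P B t p) G) (n : ℕ) : ∃ C : ℝ, 0 < C ∧ ∀ s, 0 ≤ s →
      B.E n 1 a s (G s) (G s) ≤ C * Real.exp (-2 * (t + p) * s) := by
  obtain ⟨C, hC, hb⟩ := E_le_P h n
  obtain ⟨D, hD⟩ := (hI (2 * a - 2 * p) (by linarith)).1
  refine ⟨C * (|D| + 1), by positivity, fun s hs => (hb a s hs).trans ?_⟩
  have e : Real.exp (-2 * (t + p) * s) =
      Real.exp (-(2 * a + 2 * t) * s) * Real.exp ((2 * a - 2 * p) * s) := by
    rw [← Real.exp_add]; congr 1; ring
  rw [e, mul_assoc, mul_left_comm (|D| + 1)]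
  gcongr
  refine (hD s hs).trans ?_
  gcongr
  linarith [le_abs_self D]

lemma E_le_exp' (hI : LamInt B) {t p : ℝ} (hp : 0 < p) {G : ℝ → E3 → SV}
    (h : VS B.sig (P B t p) G) (n : ℕ) : ∃ C : ℝ, 0 < C ∧ ∀ s, 0 ≤ s →
      B.E n 1 0 s (G s) (G s) ≤ C * Real.exp (-2 * t * s) := by
  obtain ⟨C, hC, hb⟩ := E_le_P h n
  obtain ⟨D, hD⟩ := (hI (2 * p) (by linarith)).2
  refine ⟨C * (|D| + 1), by positivity, fun s hs => (hb 0 s hs).trans ?_⟩
  rw [show -(dd : ℝ) - (2 * 0 - 2 * p) = -dd + 2 * p by ring,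
    show -(2 * 0 + 2 * t) * s = -2 * t * s by ring, mul_assoc C, mul_comm (|D| + 1)]
  gcongr
  linarith [le_abs_self D, hD s hs]

theorem corr_of (hI : ∀ B : BgD, B.Ok → LamInt B) : CorrStmt := by
  intro B hB Q
  have hI := hI B hB
  choose Φ hΦ using fun i j => Q.inv _ (SA_mem i j) (PP_SA i j)
  choose Ψ hΨ using fun i => Q.inv _ (SB_mem i) (PP_SB i)
  have hk0 := hB.kap_pos
  have hr := hB.one_lt_r
  have he := hB.eta_pos
  set gc : ℝ → E3 → SV := fun s x =>
    -(∑ i, ∑ j, co B (B.u j) i s x • Φ i j + ∑ i, co B B.C i s x • Ψ i) with hgc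
  set gc' : ℝ → E3 → SV := fun s x =>
    -(∑ i, ∑ j, co' B (B.u j) i s x • Φ i j + ∑ i, co' B B.C i s x • Ψ i) with hgc'
  set R : ℝ → E3 → SV := fun s x =>
    -(∑ j, eu B j s x • mulV j sqMS + ∑ j, ec B s x • mulV j (mulV j sqMS)) with hR
  have v1 : VS B.sig (P B 0 B.kap) gc :=
    (VS.add _ _ (VS.sum3 fun i => VS.sum3 fun j => VS.base _ (Φ i j) ((bk_u hB j).sy_co hB i))
      (VS.sum3 fun i => VS.base _ (Ψ i) ((bk_C hB).sy_co hB i))).neg
  have v2 : VS B.sig (P B B.r (B.kap - B.r)) gc' :=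
    (VS.add _ _ (VS.sum3 fun i => VS.sum3 fun j => VS.base _ (Φ i j) ((bk_u hB j).sy_co' hB i))
      (VS.sum3 fun i => VS.base _ (Ψ i) ((bk_C hB).sy_co' hB i))).neg
  have v3 : VS B.sig (P B B.r (B.kap - B.r)) fun s x => gc' s x + (B.fld s).tr (gc s) x :=
    VS.add _ _ v2 (by simpa only [add_zero] using vs_tr hB v1)
  have v4 : VS B.sig (fun s x => if 1 / 40 ≤ B.Lam s x then P B B.r (-B.r) s x else 0) R :=
    (VS.add _ _ (VS.sum3 fun j => VS.base _ (mulV j sqMS) (US.cutoff (sy_eu hB j) fun s x hx => by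
        rw [eu, ← mul_assoc, hB.euler_u j s x hx, zero_mul]))
      (VS.sum3 fun j => VS.base _ (mulV j (mulV j sqMS)) (US.cutoff (sy_ec hB) fun s x hx => by
        rw [ec, ← mul_assoc, hB.euler_C s x hx, zero_mul]))).neg
  refine ⟨gc, gc', R, ((SmD.sum _ fun i _ => SmD.sum _ fun j _ =>
      ((bk_u hB j).smD_co hB i).smul_const (Φ i j)).add
      (SmD.sum _ fun i _ => ((bk_C hB).smD_co hB i).smul_const (Ψ i))).neg,
    v4.sm, v1.per, v2.per, v4.per, fun s x => ?_, fun n δ _ hδ hδ' => ?_⟩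
  · have hC := (hB.C_pos s x).ne'
    have e1 : ∀ j, eu B j s x = B.mat (B.u j) s x / B.C s x
        + (dd + 2) * (Real.exp (-B.r * s) * dX j (B.C s) x) := fun j => by
      rw [eu]; field_simp
    have e2 : ec B s x = B.mat B.C s x / B.C s x
        + (dd : ℝ)⁻¹ * ∑ i, Real.exp (-B.r * s) * dX i (B.u i s) x := by
      have := dr_ne
      rw [ec]; field_simp
    simp only [hgc, hR, map_neg, map_add, map_sum, map_smul, hΦ, hΨ, smul_neg, smul_add,
      Finset.smul_sum, smul_smul, k1_mul_co hB, Fld.src, Fld.vel, neg_neg, ap_sqMS]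
    simp only [SA_eq, SB_eq, e1, e2, BgD.fld, neg_div]
    exact src_id _ (fun i j => mulV i (mulV j sqMS)) (fun i j => mulV i (mulV j (mulV j sqMS))) _ _
      (fun i j => Real.exp (-B.r * s) * dX i (B.u j s) x) _ _ _
  · obtain ⟨C1, hC1, h1⟩ := E_le_exp' hI hk0 v1 n
    obtain ⟨C2, hC2, h2⟩ := E_le_exp hI hδ' (v1.lower hδ) n
    obtain ⟨C3, hC3, h3⟩ : ∃ C : ℝ, 0 < C ∧ ∀ s, 0 ≤ s →
        B.E n 1 0 s (fun x => gc' s x + (B.fld s).tr (gc s) x)
          (fun x => gc' s x + (B.fld s).tr (gc s) x) ≤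
          C * Real.exp (-2 * min (B.kap / 2) B.r * s) := by
      rcases lt_or_ge (B.kap / 2) B.r with h | h
      · rw [min_eq_left h.le]
        simpa only [add_sub_cancel] using E_le_exp hI (a := 0) (p := B.kap / 2 - B.r) (by linarith)
          (v3.lower (by linarith)) n
      · rw [min_eq_right h]
        exact E_le_exp' hI (by linarith) v3 n
    obtain ⟨C4, hC4, h4⟩ := E_le_exp hI (a := B.eta) (p := δ - B.r) (by linarith)
      (v3.lower (by linarith)) n
    obtain ⟨C5, hC5, h5⟩ := E_le_cutoff hB v4 n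
    have m : ∀ {e c t : ℝ}, e ≤ c * Real.exp t → c ≤ C1 + C2 + C3 + C4 + C5 →
        e ≤ (C1 + C2 + C3 + C4 + C5) * Real.exp t := fun h h' =>
      h.trans (mul_le_mul_of_nonneg_right h' (Real.exp_pos _).le)
    refine ⟨C1 + C2 + C3 + C4 + C5, by positivity, fun s hs =>
      ⟨?_, ?_, m (h3 s hs) (by linarith), ?_, fun a ha => m (h5 a s hs ?_ ?_) (by linarith)⟩⟩
    · have h6 := h1 s hs
      simp only [mul_zero, zero_mul, Real.exp_zero, mul_one] at h6
      linarith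
    · have h6 := h2 s hs
      rw [zero_add] at h6
      exact m h6 (by linarith)
    · have h6 := h4 s hs
      rw [add_sub_cancel] at h6
      exact m h6 (by linarith)
    · rcases ha with rfl | rfl
      exacts [le_rfl, he.le]
    · rcases ha with rfl | rfl
      exacts [he.le, le_rfl]

end Pool.Agent.BoltzD.Corr2

end
end MrgPart2

-- ======== part 3: formerly Pool.Agent.BoltzD.C3.Main
section MrgPart3

/-! The coercivity estimate C3: the anisotropic norm is bounded by dissipation plus mass. -/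

open MeasureTheory Real Set
open scoped ENNReal RealInnerProductSpace

noncomputable section

namespace Pool.Agent.BoltzD.C3

open Pool.Agent.BoltzD.Coll

variable [Dim]

/-- bounded by dissipation plus squared L2 norm -/
def Bd (X : (E → ℝ) → ℝ≥0∞) : Prop :=
  ∃ C : ℝ≥0∞, C ≠ ⊤ ∧ ∀ g, Dec g → X g ≤ C * (DL g + L2L g)

lemma Bd.mono {X Y : (E → ℝ) → ℝ≥0∞} (h : Bd Y) (hXY : ∀ g, Dec g → X g ≤ Y g) : Bd X :=
  let ⟨C, hC, h⟩ := h
  ⟨C, hC, fun g hg => (hXY g hg).trans (h g hg)⟩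

lemma Bd.add {X Y : (E → ℝ) → ℝ≥0∞} (hX : Bd X) (hY : Bd Y) : Bd fun g => X g + Y g :=
  let ⟨C, hC, h⟩ := hX
  let ⟨C', hC', h'⟩ := hY
  ⟨C + C', by finiteness, fun g hg => by rw [add_mul]; exact add_le_add (h g hg) (h' g hg)⟩

lemma Bd.mul {X : (E → ℝ) → ℝ≥0∞} (hX : Bd X) {c : ℝ≥0∞} (hc : c ≠ ⊤) : Bd fun g => c * X g :=
  let ⟨C, hC, h⟩ := hX
  ⟨c * C, by finiteness, fun g hg => by rw [mul_assoc]; exact mul_le_mul_right (h g hg) _⟩

lemma bd_DL : Bd DL := ⟨1, ENNReal.one_ne_top, fun g _ => by rw [one_mul]; exact le_self_add⟩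

lemma bd_L2 : Bd L2L := ⟨1, ENNReal.one_ne_top, fun g _ => by rw [one_mul]; exact le_add_self⟩

lemma bd_NW : Bd NW := by
  obtain ⟨C, hC, h⟩ := expand
  obtain ⟨C', hC', h'⟩ := NW_le_TT
  obtain ⟨η, hη, hc⟩ : ∃ η : ℝ, 0 < η ∧ 2 * (C' * C) * ENNReal.ofReal η ≤ 1 := by
    have h0 : 0 ≤ (2 * (C' * C)).toReal := ENNReal.toReal_nonneg
    refine ⟨((2 * (C' * C)).toReal + 1)⁻¹, by positivity, ?_⟩
    nth_rewrite 1 [← ENNReal.ofReal_toReal (a := 2 * (C' * C)) (by finiteness)]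
    rw [← ENNReal.ofReal_mul h0, ENNReal.ofReal_le_one, ← div_eq_mul_inv,
      div_le_one (by positivity)]
    linarith
  set κ := ENNReal.ofReal ((η⁻¹ ^ 2) ^ 28) with hκ
  have hκ' : κ ≠ ⊤ := ENNReal.ofReal_ne_top
  refine ((bd_DL.add (bd_L2.mul (c := C * κ + C + 1) (by finiteness))).mul (c := 2 * C')
    (by finiteness)).mono fun g hg => ?_
  have h1 : TT (1 / 2) g ≤ DL g + C * N8 g + C * L2L g :=
    le_add_self.trans (h (1 / 2) (by norm_num) g hg)
  rw [← ENNReal.add_le_add_iff_right (NW_ne_top hg), ← two_mul]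
  calc 2 * NW g ≤ 2 * (C' * (DL g + C * (ENNReal.ofReal η * NW g + κ * L2L g) + C * L2L g
        + L2L g)) := by
        refine mul_le_mul_right ((h' (1 / 2) le_rfl g hg.1).trans ?_) _
        have := N8_le hη g hg.1
        exact mul_le_mul_right (add_le_add (h1.trans (by gcongr)) le_rfl) _
    _ = 2 * C' * (DL g + (C * κ + C + 1) * L2L g) + 2 * (C' * C) * ENNReal.ofReal η * NW g := by
        ring
    _ ≤ _ := add_le_add le_rfl (mul_le_of_le_one_left' hc)

lemma bd_N8 : Bd N8 :=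
  ((bd_NW.mul ENNReal.ofReal_ne_top).add (bd_L2.mul ENNReal.ofReal_ne_top)).mono
    fun g hg => N8_le one_pos g hg.1

lemma bd_GG : Bd (GG 0) := by
  obtain ⟨C, hC, h⟩ := expand
  refine ((bd_DL.add (bd_N8.mul hC)).add (bd_L2.mul hC)).mono fun g hg => ?_
  have hm := hg.1
  exact lint_mm_zero (by fun_prop) fun ε hε _ => le_self_add.trans (h ε hε g hg)

lemma bd_NJ : Bd NJ := by
  obtain ⟨C, hC, h⟩ := GC_le
  obtain ⟨C', hC', h'⟩ := NJ_le
  refine (((bd_GG.mul hC).add bd_NW).mul hC').mono fun g hg => (h' g hg.1).trans ?_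
  exact mul_le_mul_right (add_le_add (h g hg.1) le_rfl) _

/-- C3 for measurable functions with decay of order `dd + 30` -/
theorem c3_dec : ∃ C : ℝ, 0 < C ∧ ∀ g : E → ℝ, Dec g →
    NL g ≤ ENNReal.ofReal C * (DL g + L2L g) := by
  obtain ⟨C, hC, h⟩ := bd_NJ.add bd_NW
  refine ⟨C.toReal + 1, by positivity, fun g hg => (h g hg).trans (mul_le_mul_left ?_ _)⟩
  nth_rewrite 1 [← ENNReal.ofReal_toReal hC]
  exact ENNReal.ofReal_le_ofReal (by linarith)

/-- C3 -/
theorem c3 : C3Stmt :=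
  let ⟨C, hC, h⟩ := c3_dec
  ⟨C, hC, fun g K hg => h g ⟨hg.measurable, K, fun x => le_trans
    (mul_le_mul_of_nonneg_right (pow_le_pow_right₀ (by linarith [norm_nonneg x])
      (by unfold pN; omega)) (abs_nonneg _)) (hg.1 x)⟩⟩

end Pool.Agent.BoltzD.C3

end
end MrgPart3

-- ======== part 4: formerly Pool.Agent.BoltzD.Pos.Main
section MrgPart4

/-!
Positivity module, part 2: the energy estimate for the negative part, and `PosStmt`.
-/

set_option autoImplicit false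

open MeasureTheory Pool.Agent.BoltzC Filter Topology Set

noncomputable section

namespace Pool.Agent.BoltzD.Pos

variable [Dim]

/-- Directional derivative of `g` in all variables. -/
def Dg (g : ℝ → E3 → E3 → ℝ) (z : ℝ × E3 × E3) (s : ℝ) (x V : E3) : ℝ :=
  fderiv ℝ (fun q : ℝ × E3 × E3 => g q.1 q.2.1 q.2.2) (s, x, V) z

/-- Negative part of `sqM + g`. -/
def nn (g : ℝ → E3 → E3 → ℝ) (s : ℝ) (x V : E3) : ℝ := max (-(sqM V + g s x V)) 0

/-- Velocity derivative of `sqM + g`. -/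
def dv (g : ℝ → E3 → E3 → ℝ) (j : Ix) (s : ℝ) (x V : E3) : ℝ :=
  -1 / 2 * (sqM V * V j) + Dg g (0, 0, ev j) s x V

/-- Space component of the vector field. -/
def aa (F : ℝ → Fld) (i : Ix) (s : ℝ) (x V : E3) : ℝ := (F s).u i x + (F s).c x * V i

/-- Its space derivative. -/
def da (F : ℝ → Fld) (i : Ix) (s : ℝ) (x V : E3) : ℝ :=
  dX i ((F s).u i) x + dX i (F s).c x * V i

/-- Velocity derivative of `bj`. -/
def db (F : ℝ → Fld) (j : Ix) (s : ℝ) (x V : E3) : ℝ :=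
  ∑ i, (F s).b1 i j x * ev j i
    + ∑ i, ((F s).b2 i x * ev j i * V j + (F s).b2 i x * V i * ev j j)

/-- Time derivative of the square of the negative part. -/
def TT (g : ℝ → E3 → E3 → ℝ) (s : ℝ) (x V : E3) : ℝ :=
  -2 * (nn g s x V * Dg g (1, 0, 0) s x V)

/-- Space derivative of the space flux. -/
def AA (F : ℝ → Fld) (g : ℝ → E3 → E3 → ℝ) (i : Ix) (s : ℝ) (x V : E3) : ℝ :=
  da F i s x V * (nn g s x V * nn g s x V)
    + aa F i s x V * (-2 * (nn g s x V * Dg g (0, ev i, 0) s x V))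

/-- Velocity derivative of the velocity flux. -/
def BB (F : ℝ → Fld) (g : ℝ → E3 → E3 → ℝ) (j : Ix) (s : ℝ) (x V : E3) : ℝ :=
  db F j s x V * (nn g s x V * nn g s x V)
    + (F s).bj x V j * (-2 * (nn g s x V * dv g j s x V))

/-- The cubic weight. -/
def WW (F : ℝ → Fld) (s : ℝ) (x V : E3) : ℝ :=
  ∑ i, da F i s x V + ∑ j, (db F j s x V + (F s).bj x V j * V j)

variable {F : ℝ → Fld} {k : ℝ → E3 → ℝ} {s0 s1 ε : ℝ} {p : ℕ} {g : ℝ → E3 → E3 → ℝ}

section Deriv

variable (hL : Lim F k s0 ε p g)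
include hL

lemma hasF (q : ℝ × E3 × E3) : HasFDerivAt (fun q : ℝ × E3 × E3 => g q.1 q.2.1 q.2.2)
    (fderiv ℝ (fun q : ℝ × E3 × E3 => g q.1 q.2.1 q.2.2) q) q :=
  (hL.c1.differentiable one_ne_zero q).hasFDerivAt

lemma hd_s (t : ℝ) (x V : E3) : HasDerivAt (fun τ => g τ x V) (Dg g (1, 0, 0) t x V) t :=
  (hasF hL (t, x, V)).comp_hasDerivAt (f := fun τ : ℝ => (τ, x, V)) t
    ((hasDerivAt_id t).prodMk ((hasDerivAt_const t x).prodMk (hasDerivAt_const t V)))

omit hL in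
lemma hd_line (x z : E3) (t : ℝ) : HasDerivAt (fun τ : ℝ => x + τ • z) z t := by
  simpa using ((hasDerivAt_id t).smul_const z).const_add x

lemma hd_x (s : ℝ) (x z V : E3) (t : ℝ) :
    HasDerivAt (fun τ : ℝ => g s (x + τ • z) V) (Dg g (0, z, 0) s (x + t • z) V) t :=
  (hasF hL (s, x + t • z, V)).comp_hasDerivAt (f := fun τ : ℝ => (s, x + τ • z, V)) t
    ((hasDerivAt_const t s).prodMk ((hd_line x z t).prodMk (hasDerivAt_const t V)))

lemma hd_V (s : ℝ) (x z V : E3) (t : ℝ) :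
    HasDerivAt (fun τ : ℝ => g s x (V + τ • z)) (Dg g (0, 0, z) s x (V + t • z)) t :=
  (hasF hL (s, x, V + t • z)).comp_hasDerivAt (f := fun τ : ℝ => (s, x, V + τ • z)) t
    ((hasDerivAt_const t s).prodMk ((hasDerivAt_const t x).prodMk (hd_line V z t)))

lemma fd_x (s : ℝ) (x z V : E3) : fderiv ℝ (fun y => g s y V) x z = Dg g (0, z, 0) s x V := by
  have h1 : DifferentiableAt ℝ (fun y => g s y V) x :=
    (hasF hL (s, x, V)).differentiableAt.comp (f := fun y : E3 => (s, y, V)) x (by fun_prop)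
  have h2 := hd_x hL s x z V 0
  rw [zero_smul, add_zero] at h2
  exact (h1.hasFDerivAt.hasLineDerivAt z).unique h2

lemma hd_G (s : ℝ) (x V : E3) (j : Ix) :
    HasDerivAt (fun τ : ℝ => sqM (V + τ • ev j) + g s x (V + τ • ev j)) (dv g j s x V) 0 := by
  have h2 := hd_V hL s x (ev j) V 0
  rw [zero_smul, add_zero] at h2
  have h1 : HasDerivAt (fun τ : ℝ => sqM (V + τ • ev j)) _ 0 :=
    (hasFDerivAt_sqM V).hasLineDerivAt (ev j)
  refine (h1.add h2).congr_deriv ?_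
  simp only [dv, smul_apply, innerSL_apply_apply, inner_ev, smul_eq_mul]
  ring

lemma fd_V (s : ℝ) (x V : E3) (j : Ix) :
    fderiv ℝ (fun W => sqM W + g s x W) V (ev j) = dv g j s x V := by
  have h1 : DifferentiableAt ℝ (fun W => sqM W + g s x W) V :=
    (hasFDerivAt_sqM V).differentiableAt.add
      ((hasF hL (s, x, V)).differentiableAt.comp (f := fun y : E3 => (s, x, y)) V (by fun_prop))
  exact (h1.hasFDerivAt.hasLineDerivAt (ev j)).unique (hd_G hL s x V j)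

omit hL in
lemma hd_sq {G : ℝ → ℝ} {G' t : ℝ} (h : HasDerivAt G G' t) :
    HasDerivAt (fun τ => max (-G τ) 0 * max (-G τ) 0) (-2 * (max (-G t) 0 * G')) t := by
  have := (hasDerivAt_negsq (G t)).comp t h
  simp only [sq, Function.comp_def] at this
  exact this.congr_deriv (by ring)

lemma hd_TT (t : ℝ) (x V : E3) :
    HasDerivAt (fun τ => nn g τ x V * nn g τ x V) (TT g t x V) t :=
  hd_sq ((hd_s hL t x V).const_add (sqM V))

lemma hd_AA (hF : FldC F) (i : Ix) (s : ℝ) (x V : E3) (t : ℝ) :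
    HasDerivAt (fun τ : ℝ => aa F i s (x + τ • ev i) V
      * (nn g s (x + τ • ev i) V * nn g s (x + τ • ev i) V)) (AA F g i s (x + t • ev i) V) t :=
  ((((hF.u i).dif s).line i x t).hasDerivAt.add
    (((hF.c.dif s).line i x t).hasDerivAt.mul_const (V i))).mul
    (hd_sq ((hd_x hL s x (ev i) V t).const_add (sqM V)))

omit hL in
lemma hd_coord (V z : E3) (i : Ix) : HasDerivAt (fun τ : ℝ => (V + τ • z) i) (z i) 0 := by
  simpa using ((hasDerivAt_id (0 : ℝ)).mul_const (z i)).const_add (V i)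

omit hL in
lemma hd_bj (j : Ix) (s : ℝ) (x V : E3) :
    HasDerivAt (fun τ : ℝ => (F s).bj x (V + τ • ev j) j) (db F j s x V) 0 := by
  have h1 := HasDerivAt.fun_sum (u := Finset.univ) fun i _ =>
    (hd_coord V (ev j) i).const_mul ((F s).b1 i j x)
  have h2 := HasDerivAt.fun_sum (u := Finset.univ) fun i _ =>
    ((hd_coord V (ev j) i).const_mul ((F s).b2 i x)).mul (hd_coord V (ev j) j)
  have h3 := (h1.const_add ((F s).b0 j x)).add h2
  simp only [zero_smul, add_zero] at h3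
  exact h3

lemma hd_BB (j : Ix) (s : ℝ) (x V : E3) :
    HasDerivAt (fun τ : ℝ => (F s).bj x (V + τ • ev j) j
      * (nn g s x (V + τ • ev j) * nn g s x (V + τ • ev j))) (BB F g j s x V) 0 := by
  have h := (hd_bj (F := F) j s x V).mul (hd_sq (hd_G hL s x V j))
  simp only [zero_smul, add_zero] at h
  exact h

/-- The equation multiplied by `-2 n`. -/
lemma pointwise {s : ℝ} (hs : s0 ≤ s) (x V : E3) :
    TT g s x V + ∑ i, AA F g i s x V + ∑ j, BB F g j s x V
      = WW F s x V * (nn g s x V * nn g s x V) - 2 * k s x *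
        (Coll.Gam (fun W => sqM W + g s x W) (fun W => sqM W + g s x W) V * nn g s x V) := by
  have e := hL.eqn s hs x V
  simp only [(hd_s hL s x V).deriv, fd_x hL, fd_V hL] at e
  have hn : nn g s x V * (sqM V + g s x V) = -(nn g s x V * nn g s x V) := by
    unfold nn
    rcases le_total (-(sqM V + g s x V)) 0 with h | h
    · rw [max_eq_right h]; ring
    · rw [max_eq_left h]; ring
  have e1 : ∑ i, AA F g i s x V = (∑ i, da F i s x V) * (nn g s x V * nn g s x V)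
      + -2 * nn g s x V * ∑ i, ((F s).u i x + (F s).c x * V i) * Dg g (0, ev i, 0) s x V := by
    rw [Finset.sum_mul, Finset.mul_sum, ← Finset.sum_add_distrib]
    exact Finset.sum_congr rfl fun i _ => by rw [AA, aa]; ring
  have e2 : ∑ j, BB F g j s x V = (∑ j, (db F j s x V + (F s).bj x V j * V j))
      * (nn g s x V * nn g s x V) + 2 * nn g s x V *
        ∑ j, (F s).bj x V j * (V j / 2 * (sqM V + g s x V) - dv g j s x V) := by
    rw [Finset.sum_mul, Finset.mul_sum, ← Finset.sum_add_distrib]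
    exact Finset.sum_congr rfl fun j _ => by
      rw [BB]
      linear_combination (-((F s).bj x V j * V j)) * hn
  rw [e1, e2, TT, WW]
  linear_combination (-2 * nn g s x V) * e

lemma gr_Dg (z : ℝ × E3 × E3) : Gr 0 (Icc s0 s1) (Dg g z) := by
  obtain ⟨K, hK⟩ := hL.dec s1
  refine ⟨(hL.c1.continuous_fderiv one_ne_zero).clm_apply continuous_const, |K| * ‖z‖,
    by positivity, fun s hs x V => ?_⟩
  rw [zpow_zero, mul_one]
  refine ((fderiv ℝ (fun q : ℝ × E3 × E3 => g q.1 q.2.1 q.2.2) (s, x, V)).le_opNorm z).trans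
    (mul_le_mul_of_nonneg_right ?_ (norm_nonneg z))
  exact ((le_mul_of_one_le_left (norm_nonneg _) (Coll.one_le_wt V p)).trans
    (hK s hs x V)).trans (le_abs_self K)

lemma gr_nn : Gr (-p) (Icc s0 s1) (nn g) := by
  refine ⟨(((continuous_sqM.comp (by fun_prop)).add hL.c1.continuous).neg).max continuous_const,
    |ε|, abs_nonneg ε, fun s hs x V => ?_⟩
  have h1 := (hL.nice s hs.1 x).1 V
  have h2 : |nn g s x V| ≤ |g s x V| := by
    rw [nn, abs_of_nonneg (le_max_right _ _)]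
    exact max_le (by linarith [sqM_pos V, neg_le_abs (g s x V)]) (abs_nonneg _)
  rw [zpow_neg, zpow_natCast, ← div_eq_mul_inv, le_div_iff₀ (Coll.wt_pos V p), mul_comm]
  exact ((mul_le_mul_of_nonneg_left h2 (Coll.wt_pos V p).le).trans h1).trans (le_abs_self ε)

lemma gr_dv (j : Ix) : Gr 1 (Icc s0 s1) (dv g j) := by
  have h0 : Gr 0 (Icc s0 s1) fun _ _ V => sqM V :=
    ⟨continuous_sqM.comp (by fun_prop), 1, zero_le_one, fun _ _ _ V => by
      simpa [abs_of_pos (sqM_pos V)] using sqM_le_one V⟩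
  exact ((h0.mul' (gr_coord j) (by norm_num)).const_mul _).add
    ((gr_Dg hL _).mono (by norm_num))

end Deriv

section Coef

variable (hF : FldC F) {I : Set ℝ} (hI : IsCompact I)
include hF hI

lemma gr_aa (i : Ix) : Gr 1 I (aa F i) :=
  ((gr_coef (hF.u i).cont (fun s => ((hF.reg s).u i).2) hI).mono (by norm_num)).add
    ((gr_coef hF.c.cont (fun s => (hF.reg s).c.2) hI).mul' (gr_coord i) (by norm_num))

lemma gr_da (i : Ix) : Gr 1 I (da F i) :=
  ((gr_coef ((hF.u i).dX i).cont (fun s => ((hF.reg s).u i).2.dX i) hI).mono (by norm_num)).add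
    ((gr_coef (hF.c.dX i).cont (fun s => (hF.reg s).c.2.dX i) hI).mul' (gr_coord i) (by norm_num))

lemma gr_b1 (i j : Ix) : Gr 0 I fun s x _ => (F s).b1 i j x :=
  gr_coef (hF.b1 i j).cont (fun s => ((hF.reg s).b1 i j).2) hI

lemma gr_b2 (i : Ix) : Gr 0 I fun s x _ => (F s).b2 i x :=
  gr_coef (hF.b2 i).cont (fun s => ((hF.reg s).b2 i).2) hI

lemma gr_bj (j : Ix) : Gr 2 I fun s x V => (F s).bj x V j :=
  (((gr_coef (hF.b0 j).cont (fun s => ((hF.reg s).b0 j).2) hI).mono (by norm_num)).add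
    (Gr.sum _ fun i => (gr_b1 hF hI i j).mul' (gr_coord i) (by norm_num))).add
    (Gr.sum _ fun i => ((gr_b2 hF hI i).mul (gr_coord i)).mul' (gr_coord j) (by norm_num))

lemma gr_db (j : Ix) : Gr 1 I (db F j) :=
  (Gr.sum _ fun i => (gr_b1 hF hI i j).mul' (gr_const _) (by norm_num)).add
    (Gr.sum _ fun i => (((gr_b2 hF hI i).mul (gr_const _)).mul' (gr_coord j) (by norm_num)).add
      (((gr_b2 hF hI i).mul (gr_coord i)).mul' (gr_const _) (by norm_num)))

lemma gr_WW : Gr 3 I (WW F) :=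
  (Gr.sum _ fun i => (gr_da hF hI i).mono (by norm_num)).add
    (Gr.sum _ fun j => ((gr_db hF hI j).mono (by norm_num)).add
      ((gr_bj hF hI j).mul' (gr_coord j) (by norm_num)))

end Coef

section Main

variable (hF : FldC F) (hL : Lim F k s0 ε (pN + 1) g)
include hL

lemma gr_QQ : Gr (mI - 3) (Icc s0 s1) fun s x V => nn g s x V * nn g s x V :=
  (gr_nn hL).mul' (gr_nn hL) (by simp only [mI, pN]; omega)

lemma gr_TT : Gr mI (Icc s0 s1) (TT g) :=
  ((gr_nn hL).mul' (gr_Dg hL _) (by simp only [mI, pN]; omega)).const_mul _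

include hF

lemma gr_AA (i : Ix) : Gr mI (Icc s0 s1) (AA F g i) :=
  ((gr_da hF isCompact_Icc i).mul' (gr_QQ hL) (by omega)).add
    ((gr_aa hF isCompact_Icc i).mul' (((gr_nn hL).mul (gr_Dg hL _)).const_mul _)
      (by simp only [mI, pN]; omega))

lemma gr_BB (j : Ix) : Gr mI (Icc s0 s1) (BB F g j) :=
  ((gr_db hF isCompact_Icc j).mul' (gr_QQ hL) (by omega)).add
    ((gr_bj hF isCompact_Icc j).mul' (((gr_nn hL).mul (gr_dv hL j)).const_mul _)
      (by simp only [mI, pN]; omega))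

lemma int_BB {s : ℝ} (hs : s ∈ Icc s0 s1) (x : E3) (j : Ix) : ∫ V, BB F g j s x V = 0 :=
  int_eq_zero ((gr_bj hF isCompact_Icc j).mul' (gr_QQ hL) (by omega)) (gr_BB hF hL j) hs x
    (hd_BB hL j s x)

lemma tint_AA {s : ℝ} (hs : s ∈ Icc s0 s1) (i : Ix) :
    (tint fun x => ∫ V, AA F g i s x V) = 0 := by
  refine tint_int_eq_zero ((gr_aa hF isCompact_Icc i).mul' (gr_QQ hL) (by omega))
    (gr_AA hF hL i) hs (fun V j x => ?_) (hd_AA hL hF i s)
  have h := hL.per s V j x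
  simp only [aa, nn, ((hF.reg s).u i).2 j x, (hF.reg s).c.2 j x] at h ⊢
  rw [h]

/-- The equation integrated in the velocity. -/
lemma int_identity {s : ℝ} (hs : s ∈ Icc s0 s1) (x : E3) (hi : Integrable fun V =>
      Coll.Gam (fun W => sqM W + g s x W) (fun W => sqM W + g s x W) V * nn g s x V) :
    (∫ V, TT g s x V) + ∑ i, ∫ V, AA F g i s x V
      = (∫ V, WW F s x V * (nn g s x V * nn g s x V)) - 2 * k s x * ∫ V,
        Coll.Gam (fun W => sqM W + g s x W) (fun W => sqM W + g s x W) V * nn g s x V := by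
  have iT := (gr_TT hL).integrable hs x
  have iA := fun i => (gr_AA hF hL i).integrable hs x
  have iB := fun j => (gr_BB hF hL j).integrable hs x
  have iW := ((gr_WW hF isCompact_Icc).mul' (gr_QQ hL) (by omega)).integrable hs x
  have iA' := integrable_finsetSum Finset.univ fun i _ => iA i
  have iB' := integrable_finsetSum Finset.univ fun j _ => iB j
  rw [← integral_const_mul, ← integral_sub iW (hi.const_mul _)]
  simp only [← pointwise hL hs.1 x]
  have iTA : Integrable fun V => TT g s x V + ∑ i, AA F g i s x V := iT.add iA'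
  rw [integral_add iTA iB', integral_add iT iA',
    integral_finsetSum _ fun i _ => iA i, integral_finsetSum _ fun j _ => iB j]
  simp only [int_BB hF hL hs x, Finset.sum_const_zero, add_zero]

end Main

lemma cube_le {A δ y : ℝ} (hδ : 0 < δ) (hy : 1 ≤ y) : A * y ^ 3 ≤ δ * y ^ 8 + A ^ 2 / (4 * δ) := by
  have h1 : y ^ 6 ≤ y ^ 8 := pow_le_pow_right₀ hy (by norm_num)
  have h2 : A * y ^ 3 ≤ δ * y ^ 6 + A ^ 2 / (4 * δ) := by
    rw [← sub_nonneg, show δ * y ^ 6 + A ^ 2 / (4 * δ) - A * y ^ 3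
      = (2 * δ * y ^ 3 - A) ^ 2 / (4 * δ) by field_simp; ring]
    positivity
  nlinarith

theorem pos_of (h3 : Coll.C3Stmt) : PosStmt := by
  obtain ⟨ε0, hε0, hP⟩ := Coll.pos_ineq h3
  obtain ⟨Cw, hCw, hW⟩ := Coll.wgt_of h3
  refine ⟨ε0, pN + 1, hε0, fun F k s0 g hF hk hkp hk0 hL s1 h01 x1 V1 => ?_⟩
  obtain ⟨A, hA, hb⟩ := (gr_WW hF (isCompact_Icc (a := s0) (b := s1))).bd
  obtain ⟨k1, hk1, hk1'⟩ := exists_bound_of_per hk.cont hkp (isCompact_Icc (a := s0) (b := s1))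
  obtain ⟨k0, hk0', hk0''⟩ := exists_lower_bound_of_per hk.cont hkp
    (isCompact_Icc (a := s0) (b := s1)) fun s _ x => hk0 s x
  have hQ : Gr mI (Icc s0 s1) fun s x V => nn g s x V * nn g s x V :=
    (gr_QQ hL).mono (by omega)
  have hδ : 0 < k0 / Cw := by positivity
  have key : ∀ s ∈ Icc s0 s1, ∀ x, (∫ V, TT g s x V) + ∑ i, ∫ V, AA F g i s x V
      ≤ (A ^ 2 / (4 * (k0 / Cw)) + 3 * k1) * ∫ V, nn g s x V * nn g s x V := by
    intro s hs x
    obtain ⟨hn, hi, hG⟩ := hP (g s x) (nn g s x) ε0 (hL.nice s hs.1 x) le_rfl rfl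
    have hw := hW _ _ hn
    have i8 := Coll.integrable_wt_sq hn 8 (by norm_num)
    have i0 := Coll.integrable_sq hn
    have hD := Coll.Dis_nonneg (nn g s x)
    have h1 : (∫ V, WW F s x V * (nn g s x V * nn g s x V))
        ≤ k0 / Cw * (∫ V, (1 + ‖V‖) ^ 8 * nn g s x V ^ 2)
          + A ^ 2 / (4 * (k0 / Cw)) * ∫ V, nn g s x V ^ 2 := by
      rw [← integral_const_mul, ← integral_const_mul,
        ← integral_add (i8.const_mul _) (i0.const_mul _)]
      refine integral_mono (((gr_WW hF isCompact_Icc).mul' (gr_QQ hL) (by omega)).integrable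
        hs x) ((i8.const_mul _).add (i0.const_mul _)) fun V => ?_
      have h2 := (le_abs_self _).trans (hb s hs x V)
      rw [show (3 : ℤ) = (3 : ℕ) from rfl, zpow_natCast] at h2
      have h4 := mul_le_mul_of_nonneg_right (h2.trans (cube_le hδ (one_le_wt V)))
        (sq_nonneg (nn g s x V))
      beta_reduce
      nlinarith
    have h0 : 0 ≤ ∫ V, nn g s x V ^ 2 := integral_nonneg fun V => sq_nonneg _
    have h5 : k0 / Cw * (∫ V, (1 + ‖V‖) ^ 8 * nn g s x V ^ 2)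
        ≤ k0 * (Coll.Dis (nn g s x) + ∫ V, nn g s x V ^ 2) := by
      rw [div_mul_eq_mul_div, div_le_iff₀ hCw, mul_assoc, mul_comm _ Cw]
      exact mul_le_mul_of_nonneg_left hw hk0'.le
    have h6 := hk0'' s hs x
    have h7 := (le_abs_self _).trans (hk1' s hs x)
    have h8 := mul_le_mul_of_nonneg_left hG (hk0 s x).le
    have h9 := mul_le_mul_of_nonneg_right h6 (add_nonneg hD h0)
    have h10 := mul_le_mul_of_nonneg_right h7 h0
    rw [int_identity hF hL hs x hi]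
    simp only [← sq] at h1 ⊢
    change k s x * -∫ V, Coll.Gam (fun W => sqM W + g s x W) (fun W => sqM W + g s x W) V
      * nn g s x V ≤ _ at h8
    nlinarith
  have hE := le_zero_of_deriv_le (e := fun s => tint fun x => ∫ V, nn g s x V * nn g s x V)
    (e' := fun s => tint fun x => ∫ V, TT g s x V) (C := A ^ 2 / (4 * (k0 / Cw)) + 3 * k1) h01
    hQ.contOn_tint
    (fun s hs => hasDerivAt_tint_int hQ (gr_TT hL) (Icc_mem_nhds hs.1 hs.2) (hd_TT hL))
    (fun s hs => ?_) ?_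
  · have hs1 : s1 ∈ Icc s0 s1 := right_mem_Icc.2 h01
    have hnn : ∀ x, 0 ≤ ∫ V, nn g s1 x V * nn g s1 x V :=
      fun x => integral_nonneg fun V => mul_self_nonneg _
    have h1 := eq_zero_of_tint_eq_zero (ψ := fun x => ∫ V, nn g s1 x V * nn g s1 x V)
      (fun i x => by simp only [nn, hL.per s1 _ i x]) (hQ.cont_x hs1) hnn
      (le_antisymm hE (tint_nonneg hnn)) x1
    have h2 := (integral_eq_zero_iff_of_nonneg (fun V => mul_self_nonneg _)
      (hQ.integrable hs1 x1)).1 h1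
    have h4 := congrFun (((hQ.cont_V s1 x1).ae_eq_iff_eq volume continuous_zero).1 h2) V1
    have h5 : nn g s1 x1 V1 = 0 := mul_self_eq_zero.1 h4
    have h6 : -(sqM V1 + g s1 x1 V1) ≤ nn g s1 x1 V1 := le_max_left _ _
    linarith
  · have hs' : s ∈ Icc s0 s1 := Ioo_subset_Icc_self hs
    have cT := (gr_TT hL).cont_x hs'
    have cA := fun i => (gr_AA hF hL i).cont_x hs'
    have cA' := continuous_finsetSum Finset.univ fun i _ => cA i
    have h1 := tint_mono (cT.fun_add cA') ((hQ.cont_x hs').const_mul _) (key s hs')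
    rw [tint_add cT cA', tint_sum _ fun i _ => cA i, tint_const_mul] at h1
    simpa only [tint_AA hF hL hs', Finset.sum_const_zero, add_zero] using h1
  · have h1 : ∀ x V, nn g s0 x V = 0 := fun x V =>
      max_eq_right (by linarith [hL.init_small x V, neg_le_abs (g s0 x V), sqM_pos V])
    simp [h1]

end Pool.Agent.BoltzD.Pos

end
end MrgPart4

-- ======== part 5: formerly Pool.Agent.BoltzD.Top.Asm
section MrgPart5

-- ======== part 0: formerly Pool.Agent.BoltzD.Corr2.Main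
section MrgPart0

/-!
Module MC2: the integrals of the powers of `Lam`, and the final statement.
-/

set_option autoImplicit false

open Pool.Agent.BoltzC MeasureTheory

noncomputable section

namespace Pool.Agent.BoltzD.Corr2

variable [Dim]

variable (B : BgD)

lemma tint_Lam_le (s p : ℝ) {ψ : E3 → ℝ}
    (hψ : IntegrableOn ψ (cube (WithLp.toLp 2 fun _ => -(1 / 2 : ℝ)) 1))
    (h : ∀ x, x ≠ 0 → box (1 / 2) x → B.Lam s x ^ p ≤ ψ x) :
    tint (fun x => B.Lam s x ^ p) ≤ ∫ x in cube (WithLp.toLp 2 fun _ => -(1 / 2 : ℝ)) 1, ψ x := by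
  have hc : Continuous fun x => B.Lam s x ^ p :=
    (continuous_Lam s).rpow_const fun x => Or.inl (Lam_pos s x).ne'
  have hp : Per fun x => B.Lam s x ^ p := fun i x => by simp only [BgD.Lam, B.cut.per_rho2 i x]
  rw [← integral_cube_eq_tint hp hc (WithLp.toLp 2 fun _ => -(1 / 2 : ℝ))]
  refine setIntegral_mono_on_ae (integrableOn_cube hc _ _) hψ (measurableSet_cube _ _) ?_
  filter_upwards [compl_mem_ae_iff.2 (measure_singleton (0 : E3))] with x hx hx'
  refine h x hx fun i => ?_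
  have h1 := hx' i
  simp only [Set.mem_Ioc] at h1
  rw [abs_le]
  constructor <;> linarith [h1.1, h1.2]

lemma Lam_rpow_le (s : ℝ) {q t : ℝ} (hq : 0 ≤ q) {x : E3} (hx : box (1 / 2) x) (ht : 0 < t)
    (h : t ≤ Real.exp (-2 * s) + ‖x‖ ^ 2) :
    B.Lam s x ^ (-q) ≤ (12 : ℝ) ^ (q / 2) * t ^ (-q / 2) := by
  have h1 := B.cut.rho2_ge x hx
  have h2 := Real.exp_pos (-2 * s)
  have h3 : √(t / 12) ≤ B.Lam s x := Real.sqrt_le_sqrt (by linarith)
  refine (Real.rpow_le_rpow_of_nonpos (by positivity) h3 (by linarith)).trans (le_of_eq ?_)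
  rw [Real.sqrt_eq_rpow, ← Real.rpow_mul (by positivity), Real.div_rpow ht.le (by norm_num),
    show 1 / 2 * -q = -q / 2 by ring, div_eq_mul_inv, ← Real.rpow_neg (by norm_num), mul_comm,
    show -(-q / 2) = q / 2 by ring]

theorem tint_Lam_neg {b : ℝ} (hb : 0 < b) : ∃ C : ℝ, ∀ s,
    tint (fun x => B.Lam s x ^ (-(dd : ℝ) - b)) ≤ C * Real.exp (b * s) := by
  have hd := dr_pos
  have hI : Integrable fun y : E3 => (1 + ‖y‖ ^ 2) ^ (-(dd + b) / 2) :=
    integrable_rpow_neg_one_add_norm_sq (by simpa using hb)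
  refine ⟨(12 : ℝ) ^ ((dd + b) / 2) * ∫ y : E3, (1 + ‖y‖ ^ 2) ^ (-(dd + b) / 2), fun s => ?_⟩
  have he := Real.exp_pos s
  have hJ := (hI.comp_smul he.ne').const_mul ((12 : ℝ) ^ ((dd + b) / 2) * Real.exp ((dd + b) * s))
  refine (tint_Lam_le B s _ hJ.integrableOn fun x _ hx => ?_).trans
    ((setIntegral_le_integral hJ (ae_of_all _ fun x => by positivity)).trans (le_of_eq ?_))
  · rw [show -(dd : ℝ) - b = -(dd + b) by ring]
    refine (Lam_rpow_le B s (by linarith) hx (by positivity) le_rfl).trans (le_of_eq ?_)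
    have e1 : Real.exp (-2 * s) + ‖x‖ ^ 2 = Real.exp (-2 * s) * (1 + ‖Real.exp s • x‖ ^ 2) := by
      rw [norm_smul, Real.norm_of_nonneg he.le, mul_pow, mul_add, ← mul_assoc, ← Real.exp_nat_mul,
        ← Real.exp_add]
      simp
    rw [e1, Real.mul_rpow (by positivity) (by positivity), ← Real.exp_mul, ← mul_assoc,
      show -2 * s * (-(dd + b) / 2) = (dd + b) * s by ring]
  · rw [integral_const_mul,
      Measure.integral_comp_smul volume (fun y : E3 => (1 + ‖y‖ ^ 2) ^ (-(dd + b) / 2))]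
    have e2 : Real.exp ((dd + b) * s) = Real.exp s ^ dd * Real.exp (b * s) := by
      rw [← Real.exp_nat_mul, ← Real.exp_add]; congr 1; ring
    simp only [finrank_euclideanSpace, Fintype.card_fin, smul_eq_mul, e2]
    rw [abs_of_pos (by positivity)]
    field_simp

theorem tint_Lam_pos {b : ℝ} (hb : 0 < b) : ∃ C : ℝ, ∀ s, 0 ≤ s →
    tint (fun x => B.Lam s x ^ (-(dd : ℝ) + b)) ≤ C := by
  rcases le_or_gt (dd : ℝ) b with h3 | h3
  · refine ⟨(dd + 1) ^ (-(dd : ℝ) + b), fun s hs =>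
      (le_abs_self _).trans (abs_tint_le_const fun x => ?_)⟩
    rw [abs_of_pos (Real.rpow_pos_of_pos (Lam_pos s x) _)]
    exact Real.rpow_le_rpow (Lam_pos s x).le (Lam_le hs x) (by linarith)
  have hI : LocallyIntegrable (fun x : E3 => ‖x‖ ^ (-(dd - b))) :=
    locallyIntegrable_of_norm_le_rpow (C := 1) (α := dd - b)
      (by have := two_le_dd; rw [finrank_Ix]; omega) (by simpa using hb)
      (ae_of_all _ fun x => by rw [Real.norm_of_nonneg (by positivity), one_mul])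
      (by fun_prop : Measurable fun x : E3 => ‖x‖ ^ (-(dd - b))).aestronglyMeasurable
  have hJ := ((hI.integrableOn_isCompact (isCompact_closedBall _ _)).mono_set
    (cube_subset_closedBall (WithLp.toLp 2 fun _ => -(1 / 2 : ℝ)) 1)).const_mul
      ((12 : ℝ) ^ ((dd - b) / 2))
  refine ⟨_, fun s _ => tint_Lam_le B s _ hJ fun x hx0 hx => ?_⟩
  have hn : 0 < ‖x‖ := norm_pos_iff.2 hx0
  rw [show -(dd : ℝ) + b = -(dd - b) by ring]
  refine (Lam_rpow_le B s (t := ‖x‖ ^ 2) (by linarith) hx (by positivity)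
    (by linarith [Real.exp_pos (-2 * s)])).trans (le_of_eq ?_)
  rw [← Real.rpow_natCast, ← Real.rpow_mul hn.le]
  congr 2
  push_cast
  ring

theorem lamInt : LamInt B := fun _ hb =>
  ⟨(tint_Lam_neg B hb).imp fun _ h s _ => h s, tint_Lam_pos B hb⟩

/-- Module MC2. -/
theorem corrStmt : CorrStmt := corr_of fun B _ => lamInt B

end Pool.Agent.BoltzD.Corr2

end
end MrgPart0

-- ======== part 1: formerly Pool.Agent.BoltzD.Corr.VCut
section MrgPart1

/-!
Velocity cut-off of the collision invariants.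
-/

set_option autoImplicit false

open MeasureTheory SchwartzMap Pool.Agent.BoltzC Filter Topology

noncomputable section

namespace Pool.Agent.BoltzD.Corr

variable [Dim]

lemma temperate_dil (ψ : SV) (ε : ℝ) : (fun v : E => ψ (ε • v)).HasTemperateGrowth :=
  ψ.hasTemperateGrowth.comp (ε • ContinuousLinearMap.id ℝ E).hasTemperateGrowth

/-- Multiplication by `ψ(ε V)`. -/
def mulE (ψ : SV) (ε : ℝ) : SV →L[ℝ] SV := smulLeftCLM ℝ fun v : E => ψ (ε • v)

@[simp] lemma mulE_apply (ψ : SV) (ε : ℝ) (f : SV) (v : E) : mulE ψ ε f v = ψ (ε • v) * f v := by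
  simp [mulE, smulLeftCLM_apply_apply (temperate_dil ψ ε)]

lemma ap_mulE (j : Ix) (ψ : SV) (ε : ℝ) (f : SV) :
    ap j (mulE ψ ε f) = mulE ψ ε (ap j f) - ε • mulE (dV j ψ) ε f := by
  ext v
  have h0 : (mulE ψ ε f : E → ℝ) = fun v => ψ (ε • v) * f v := funext (mulE_apply ψ ε f)
  have h1 := ((ψ.hasFDerivAt (ε • v)).comp v ((hasFDerivAt_id v).const_smul ε)).mul
    (f.hasFDerivAt v)
  rw [ap_apply, h0]
  erw [h1.fderiv]
  simp [ap_apply, dV_apply]
  ring

lemma tendsto_mulE (n : ℕ) : ∀ ψ f : SV,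
    Tendsto (fun ε => nA n (mulE ψ ε f - ψ 0 • f)) (𝓝 0) (𝓝 0) := by
  induction n with
  | zero =>
    intro ψ f
    simp only [nA_zero, ip_self_eq]
    have hc := ψ.continuous
    have hf := f.continuous
    have h := tendsto_integral_filter_of_dominated_convergence (μ := (volume : Measure E))
      (l := 𝓝 (0 : ℝ)) (F := fun ε v => ((ψ (ε • v) - ψ 0) * f v) ^ 2) (f := fun _ => (0 : ℝ))
      (fun v => (2 * SchwartzMap.seminorm ℝ 0 0 ψ) ^ 2 * f v ^ 2)
      (Eventually.of_forall fun ε => Continuous.aestronglyMeasurable (by fun_prop))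
      (Eventually.of_forall fun ε => ae_of_all _ fun v => ?_)
      ((f.memLp 2 volume).integrable_sq.const_mul _) (ae_of_all _ fun v => ?_)
    · simp only [integral_zero] at h
      convert h using 3 with ε
      funext v
      simp [sub_mul]
    · rw [Real.norm_of_nonneg (sq_nonneg _), mul_pow, ← sq_abs (ψ (ε • v) - ψ 0)]
      gcongr
      have h1 := ψ.norm_le_seminorm ℝ (ε • v)
      have h2 := ψ.norm_le_seminorm ℝ 0
      rw [Real.norm_eq_abs] at h1 h2
      linarith [abs_sub (ψ (ε • v)) (ψ 0)]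
    · have : Tendsto (fun ε : ℝ => ((ψ (ε • v) - ψ 0) * f v) ^ 2) (𝓝 0)
          (𝓝 (((ψ ((0 : ℝ) • v) - ψ 0) * f v) ^ 2)) := Continuous.tendsto (by fun_prop) 0
      simpa using this
  | succ n ih =>
    intro ψ f
    simp only [nA_succ]
    have key : ∀ j, Tendsto (fun ε => nA n (ap j (mulE ψ ε f - ψ 0 • f))) (𝓝 0) (𝓝 0) := by
      intro j
      have hb : ∀ ε, nA n (ap j (mulE ψ ε f - ψ 0 • f)) ≤
          2 * nA n (mulE ψ ε (ap j f) - ψ 0 • ap j f) + 2 * (ε ^ 2 *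
            (2 * nA n (mulE (dV j ψ) ε f - dV j ψ 0 • f) + 2 * nA n (dV j ψ 0 • f))) := by
        intro ε
        have e1 : ap j (mulE ψ ε f - ψ 0 • f) =
            (mulE ψ ε (ap j f) - ψ 0 • ap j f) - ε • mulE (dV j ψ) ε f := by
          rw [map_sub, map_smul, ap_mulE]; abel
        rw [e1]
        refine (nA_sub_le _ _ _).trans ?_
        rw [nA_smul]
        gcongr
        have := nA_add_le n (mulE (dV j ψ) ε f - dV j ψ 0 • f) (dV j ψ 0 • f)
        rwa [sub_add_cancel] at this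
      refine squeeze_zero (fun ε => nA_nonneg _ _) hb ?_
      have h2 : Tendsto (fun ε : ℝ => ε ^ 2) (𝓝 0) (𝓝 0) := by
        simpa using (continuous_pow 2).tendsto (0 : ℝ)
      have := ((ih ψ (ap j f)).const_mul 2).add ((h2.mul (((ih (dV j ψ) f).const_mul 2).add_const
        (2 * nA n (dV j ψ 0 • f)))).const_mul 2)
      simpa using this
    simpa using tendsto_finsetSum Finset.univ fun j _ => key j

theorem vcut : VCutStmt := by
  intro n ε hε
  have h1 : ∀ᶠ t : ℝ in 𝓝 0, ∀ a, nA n (mulE sqMS t (eH a) - sqMS 0 • eH a) < ε :=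
    eventually_all.2 fun a => (tendsto_mulE n sqMS (eH a)).eventually (gt_mem_nhds hε)
  obtain ⟨t, ht, ht0⟩ := ((h1.filter_mono nhdsWithin_le_nhds).and
    (self_mem_nhdsWithin (s := Set.Ioi (0 : ℝ)))).exists
  have ht0' : 0 < t := ht0
  have hb : ∀ a, ∃ C : ℝ, 0 ≤ C ∧ ∀ V, |mulE sqMS t (eH a) V| ≤ C * sqM V := by
    intro a
    obtain ⟨φ, hφ, h⟩ := exists_PV_of_HP _ (eH_mem a)
    obtain ⟨C, hC, hφ'⟩ := PV_growth φ hφ
    refine ⟨C * ((1 + t⁻¹) ^ 2 * Real.exp (2 ^ 2)), by positivity, fun V => ?_⟩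
    have h2 := pow_mul_sqM_le 2 (t • V)
    have h3 : 1 + ‖V‖ ≤ (1 + t⁻¹) * (1 + ‖t • V‖) := by
      rw [norm_smul, Real.norm_of_nonneg ht0'.le]
      have : t⁻¹ * (t * ‖V‖) = ‖V‖ := by field_simp
      have h4 : 0 ≤ t⁻¹ := by positivity
      have h5 : 0 ≤ t * ‖V‖ := by positivity
      nlinarith
    have h4 := sqM_pos (t • V)
    have h5 := sqM_pos V
    rw [mulE_apply, h, sqMS_apply, abs_mul, abs_mul, abs_of_pos h4, abs_of_pos h5, ← mul_assoc]
    refine mul_le_mul_of_nonneg_right ?_ h5.le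
    calc sqM (t • V) * |φ V| ≤ sqM (t • V) * (C * ((1 + t⁻¹) * (1 + ‖t • V‖)) ^ 2) := by
          gcongr
          refine (hφ' V).trans ?_
          gcongr
      _ = C * ((1 + t⁻¹) ^ 2 * ((1 + ‖t • V‖) ^ 2 * sqM (t • V))) := by ring
      _ ≤ _ := by
          have h6 : (1 + ‖t • V‖) ^ 2 * sqM (t • V) ≤ Real.exp (2 ^ 2) := by exact_mod_cast h2
          gcongr
  choose C hC0 hC using hb
  refine ⟨fun a => mulE sqMS t (eH a), ∑ a, C a + 1,
    add_pos_of_nonneg_of_pos (Finset.sum_nonneg fun a _ => hC0 a) one_pos, fun a => ?_,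
    fun a V => (hC a V).trans ?_⟩
  · have := (ht a).le
    rw [sqMS_apply, show sqM 0 = 1 by simp [sqM], one_smul] at this
    rwa [nA_sub_comm]
  · have := Finset.single_le_sum (f := C) (fun a _ => hC0 a) (Finset.mem_univ a)
    have h5 := sqM_pos V
    gcongr
    linarith

end Pool.Agent.BoltzD.Corr

end
end MrgPart1

-- ======== part 2: formerly Pool.Agent.BoltzD.Alg.Sob
section MrgPart2

/-! Pointwise bound by the weighted energy (module M4c). -/

set_option autoImplicit false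

open MeasureTheory Pool.Agent.BoltzC Finset

noncomputable section

namespace Pool.Agent.BoltzD

variable [Dim]

lemma abs_sub_le_of_dX {a : E3 → ℝ} (ha : Sm a) {x : E3} {r M : ℝ}
    (h : ∀ z ∈ Metric.closedBall x r, ∀ i, |dX i a z| ≤ M) {y : E3}
    (hy : y ∈ Metric.closedBall x r) : |a y - a x| ≤ dd * M * r := by
  have hr : 0 ≤ r := dist_nonneg.trans hy
  have hx : x ∈ Metric.closedBall x r := Metric.mem_closedBall_self hr
  have hM : 0 ≤ M := (abs_nonneg _).trans (h x hx 0)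
  have key := (convex_closedBall x r).norm_image_sub_le_of_norm_fderiv_le (f := a) (C := dd * M)
    (fun z _ => ha.differentiable z) (fun z hz => (ha.norm_fderiv_le z).trans (sum_le_Ix fun i => h z hz i)) hx hy
  rw [← dist_eq_norm y x] at key
  exact key.trans (mul_le_mul_of_nonneg_left hy (by positivity))

/-- The length scale is comparable with itself on small balls. -/
lemma Slow.scale_cmp {K : ℝ} {σ : E3 → ℝ} (hσ : Slow K σ σ) (hK : 0 < K) {x y : E3}
    (hy : y ∈ Metric.closedBall x (σ x / (2 * dd * K))) : σ x / 2 ≤ σ y ∧ σ y ≤ 2 * σ x := by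
  have h := abs_sub_le_of_dX hσ.sm (M := K)
    (fun z _ i => le_of_mul_le_mul_left (by linarith [hσ.bd i z]) (hσ.pos z)) hy
  have e : dd * K * (σ x / (2 * dd * K)) = σ x / 2 := by have := dr_ne; field_simp
  rw [e, abs_le] at h
  constructor <;> linarith [h.1, h.2, hσ.pos x]

/-- A slowly varying weight is comparable with itself on small balls. -/
lemma Slow.weight_cmp {K : ℝ} {σ ω : E3 → ℝ} (hω : Slow K σ ω) (hσ : Slow K σ σ) (hK : 0 < K)
    {x y : E3} (hy : y ∈ Metric.closedBall x (σ x / (2 * dd * K))) :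
    ω x ≤ 3 * ω y ∧ ω y ≤ 3 * ω x := by
  have hsx := hσ.pos x
  have hl : Sm fun z => Real.log (ω z) :=
    SmC.comp_contDiffOn hω.sm isOpen_compl_singleton (fun _ z => (hω.pos z).ne')
      Real.contDiffOn_log
  have h := abs_sub_le_of_dX hl (M := 2 * K / σ x) (fun z hz i => by
    have h1 := (hσ.scale_cmp hK hz).1
    have h2 := hω.bd i z
    have h3 := hω.pos z
    rw [dX_comp hω.sm.dif (Real.hasDerivAt_log h3.ne'), abs_mul, abs_of_pos (inv_pos.2 h3),
      inv_mul_le_iff₀ h3, ← mul_div_assoc, le_div_iff₀ hsx]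
    nlinarith [abs_nonneg (dX i ω z)]) hy
  have e : dd * (2 * K / σ x) * (σ x / (2 * dd * K)) = 1 := by have := dr_ne; field_simp
  rw [e, abs_le] at h
  have key : ∀ a b : ℝ, 0 < a → 0 < b → Real.log a - Real.log b ≤ 1 → a ≤ 3 * b := by
    intro a b ha hb hab
    have h1 : a = Real.exp (Real.log a - Real.log b) * b := by
      rw [Real.exp_sub, Real.exp_log ha, Real.exp_log hb]; field_simp
    rw [h1]
    gcongr
    exact (Real.exp_le_exp.2 hab).trans (by linarith [Real.exp_one_lt_d9])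
  exact ⟨key _ _ (hω.pos x) (hω.pos y) (by linarith [h.1]), key _ _ (hω.pos y) (hω.pos x) h.2⟩

lemma term_le_bb' {n : ℕ} {θ : ℝ} (hθ : 0 ≤ θ) (σ : E3 → ℝ) (G : E3 → SV) (u : List Ix)
    (m : ℕ) (hum : u.length + m ≤ n) (x : E3) :
    θ ^ (u.length + m) * σ x ^ (2 * u.length) * nA m (dXw u G x) ≤ bb n θ σ G G x := by
  have hw : ∀ j m : ℕ, 0 ≤ θ ^ (j + m) * σ x ^ (2 * j) := fun j m => by
    rw [pow_mul]; positivity
  have h0 : ∀ j m : ℕ, 0 ≤ θ ^ (j + m) * σ x ^ (2 * j) * ∑ w ∈ words j, nA m (dXw w G x) :=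
    fun j m => mul_nonneg (hw j m) (sum_nonneg fun _ _ => nA_nonneg _ _)
  simp only [bb, lev, ← nA_eq_ip_RR]
  refine le_trans ?_ (single_le_sum (f := fun j => ∑ m ∈ range (n + 1 - j),
    θ ^ (j + m) * σ x ^ (2 * j) * ∑ w ∈ words j, nA m (dXw w G x))
    (fun j _ => sum_nonneg fun m _ => h0 j m) (mem_range.2 (by omega : u.length < n + 1)))
  refine le_trans ?_ (single_le_sum (f := fun m => θ ^ (u.length + m) * σ x ^ (2 * u.length) *
    ∑ w ∈ words u.length, nA m (dXw w G x)) (fun m _ => h0 _ m)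
    (mem_range.2 (by omega : m < n + 1 - u.length)))
  exact mul_le_mul_of_nonneg_left (single_le_sum (f := fun w => nA m (dXw w G x))
    (fun _ _ => nA_nonneg _ _) (mem_words.2 rfl)) (hw _ _)

lemma continuous_bb_self {n : ℕ} {θ : ℝ} {σ : E3 → ℝ} {G : E3 → SV} (hσ : Continuous σ)
    (hG : Sm G) : Continuous (bb n θ σ G G) := by
  unfold bb lev
  simp only [← nA_eq_ip_RR]
  refine continuous_finsetSum _ fun j _ => continuous_finsetSum _ fun m _ => ?_
  exact (continuous_const.mul (hσ.pow _)).mul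
    (continuous_finsetSum _ fun u _ => ((hG.dXw u).nA m).cont)

lemma tint_term_le_En {n : ℕ} {θ : ℝ} (hθ : 0 < θ) (hθ1 : θ ≤ 1) {ω σ : E3 → ℝ} {G : E3 → SV}
    (hω : Continuous ω) (hω0 : ∀ y, 0 ≤ ω y) (hσ : Continuous σ) (hG : Sm G) (u : List Ix)
    (m : ℕ) (hum : u.length + m ≤ n) :
    tint (fun y => ω y * σ y ^ (2 * u.length) * nA m (dXw u G y)) ≤
      (θ ^ n)⁻¹ * En n θ ω σ G G := by
  rw [En, ← tint_const_mul]
  have hc := ((hG.dXw u).nA m).cont
  refine tint_mono (by fun_prop) (continuous_const.mul (hω.mul (continuous_bb_self hσ hG)))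
    fun y => ?_
  have h1 := term_le_bb' hθ.le σ G u m hum y
  have h2 : θ ^ n ≤ θ ^ (u.length + m) := pow_le_pow_of_le_one hθ.le hθ1 hum
  have h3 : 0 ≤ σ y ^ (2 * u.length) * nA m (dXw u G y) :=
    mul_nonneg (by rw [pow_mul]; positivity) (nA_nonneg _ _)
  rw [le_inv_mul_iff₀ (by positivity), mul_assoc, mul_left_comm]
  refine mul_le_mul_of_nonneg_left (le_trans ?_ h1) (hω0 y)
  rw [mul_assoc]
  exact mul_le_mul_of_nonneg_right h2 h3

/-- Pointwise bound of one term. -/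
lemma sob_term (K : ℝ) (N : ℕ) {θ : ℝ} (hθ : 0 < θ) (hθ1 : θ ≤ 1) : ∃ C : ℝ, 0 < C ∧
    ∀ (ω σ : E3 → ℝ) (G : E3 → SV), Slow K σ ω → Slow K σ σ → (∀ x, σ x ≤ K) → Sm G → Per G →
      ∀ (u : List Ix) (m : ℕ), u.length + m ≤ N → ∀ x,
        σ x ^ dd * ω x * (σ x ^ (2 * u.length) * nA m (dXw u G x)) ≤ C * En (N + dd) θ ω σ G G := by
  by_cases hK : 0 < K
  swap
  · exact ⟨1, one_pos, fun ω σ G _ hσ hle => absurd ((hσ.pos 0).trans_le (hle 0)) hK⟩
  obtain ⟨D, hD⟩ : ∃ D : ℝ, D = 2 * dd * dd * K := ⟨_, rfl⟩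
  have hd2 := two_le_dr
  have hd0 := dr_pos
  have hD0 : 0 < D := by rw [hD]; positivity
  have hKD : K ≤ D := by
    rw [hD]
    refine le_mul_of_one_le_left hK.le ?_
    nlinarith
  obtain ⟨M, hM⟩ : ∃ M : ℝ, M = ∑ i ∈ range (dd + 1), D ^ dd / D ^ (2 * i) := ⟨_, rfl⟩
  have hM0 : 0 < M := by rw [hM]; exact sum_pos (fun i _ => by positivity) (by simp)
  obtain ⟨c, hc⟩ : ∃ c : ℝ, c = 3 * 4 ^ (N + dd) * M := ⟨_, rfl⟩
  have hc0 : 0 < c := by rw [hc]; positivity
  obtain ⟨S, hS⟩ : ∃ S : ℝ, S = ∑ i ∈ range (dd + 1), ∑ _v ∈ words i, (θ ^ (N + dd))⁻¹ := ⟨_, rfl⟩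
  have hS0 : 0 ≤ S := by
    rw [hS]; exact sum_nonneg fun _ _ => sum_nonneg fun _ _ => by positivity
  refine ⟨c * (3 ^ dd * S) + 1, by positivity, fun ω σ G hω hσ hle hG pG u m hum x => ?_⟩
  have hsx := hσ.pos x
  have hox := hω.pos x
  have hE : 0 ≤ En (N + dd) θ ω σ G G := by
    have := tint_term_le_En (n := N + dd) hθ hθ1 hω.sm.cont (fun y => (hω.pos y).le) hσ.sm.cont hG
      [] 0 (by simp)
    have h0 : 0 ≤ tint fun y => ω y * σ y ^ (2 * ([] : List Ix).length) *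
        nA 0 (dXw [] G y) := tint_nonneg fun y => by
      have := hω.pos y
      have := hσ.pos y
      have := nA_nonneg 0 (dXw [] G y)
      positivity
    exact (mul_nonneg_iff_of_pos_left (by positivity)).1 (h0.trans this)
  have key := nA_le_weighted m (hG.dXw u) (pG.dXw u)
    (w := fun i y => ω y * σ y ^ (2 * (u.length + i)))
    (fun i => hω.per.map₂ hσ.per fun a b => a * b ^ (2 * (u.length + i)))
    (fun i => hω.sm.cont.mul (hσ.sm.cont.pow _))
    (fun i y => by have := hω.pos y; have := hσ.pos y; positivity)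
    (L := σ x / D) (w₀ := c⁻¹ * (σ x ^ dd * ω x * σ x ^ (2 * u.length))) (by positivity)
    (by rw [div_le_one hD0]; linarith [hle x]) (by positivity) x (fun i hi y hy => by
      have hy' : y ∈ Metric.closedBall x (σ x / (2 * dd * K)) := by
        have := cube_subset_closedBall x _ hy
        rwa [abs_of_pos (by positivity), show dd * (σ x / D) = σ x / (2 * dd * K) by
          rw [hD]; field_simp] at this
      have h1 := (hσ.scale_cmp hK hy').1
      have h2 := (hω.weight_cmp hσ hK hy').1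
      have h3 : D ^ dd / D ^ (2 * i) ≤ M := by
        rw [hM]
        exact single_le_sum (f := fun i => D ^ dd / D ^ (2 * i)) (fun i _ => by positivity)
          (mem_range.2 hi)
      have h4 : (4 : ℝ) ^ (u.length + i) ≤ 4 ^ (N + dd) :=
        pow_le_pow_right₀ (by norm_num) (by omega)
      have h5 : σ x ^ (2 * (u.length + i)) ≤ 4 ^ (N + dd) * σ y ^ (2 * (u.length + i)) := by
        calc σ x ^ (2 * (u.length + i)) ≤ (2 * σ y) ^ (2 * (u.length + i)) := by
              gcongr; linarith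
          _ = 4 ^ (u.length + i) * σ y ^ (2 * (u.length + i)) := by
              rw [mul_pow, pow_mul]; norm_num
          _ ≤ _ := by have := hσ.pos y; gcongr
      have hoy := hω.pos y
      have hsy := hσ.pos y
      calc c⁻¹ * (σ x ^ dd * ω x * σ x ^ (2 * u.length)) * ((σ x / D) ^ (2 * i) / (σ x / D) ^ dd)
          = c⁻¹ * (ω x * σ x ^ (2 * (u.length + i)) * (D ^ dd / D ^ (2 * i))) := by
            rw [mul_add, pow_add, div_pow, div_pow]; field_simp
        _ ≤ c⁻¹ * (3 * ω y * (4 ^ (N + dd) * σ y ^ (2 * (u.length + i))) * M) := by gcongr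
        _ = ω y * σ y ^ (2 * (u.length + i)) := by rw [hc]; field_simp)
  have h6 : ∑ i ∈ range (dd + 1), ∑ v ∈ words i, (tint fun y => ω y * σ y ^ (2 * (u.length + i)) *
      nA m (dXw v (dXw u G) y)) ≤
      ∑ i ∈ range (dd + 1), ∑ _v ∈ words i, (θ ^ (N + dd))⁻¹ * En (N + dd) θ ω σ G G := by
    refine sum_le_sum fun i hi => sum_le_sum fun v hv => ?_
    have hv' := mem_words.1 hv
    have hi' := mem_range.1 hi
    have := tint_term_le_En (n := N + dd) hθ hθ1 hω.sm.cont (fun y => (hω.pos y).le) hσ.sm.cont hG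
      (u ++ v) m (by rw [List.length_append]; omega)
    rwa [List.length_append, hv', dXw_append] at this
  simp only [← sum_mul] at h6
  rw [← hS] at h6
  have h7 := key.trans (mul_le_mul_of_nonneg_left h6 (by positivity))
  rw [mul_assoc, inv_mul_le_iff₀ hc0] at h7
  calc _ = σ x ^ dd * ω x * σ x ^ (2 * u.length) * nA m (dXw u G x) := by ring
    _ ≤ _ := h7
    _ ≤ _ := by nlinarith

theorem sobStmt : SobStmt := by
  intro K N θ hθ hθ1
  obtain ⟨C, hC, h⟩ := sob_term K N hθ hθ1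
  refine ⟨(∑ j ∈ range (N + 1), ∑ _m ∈ range (N + 1 - j), ∑ _u ∈ words j, C) + 1,
    add_pos_of_nonneg_of_pos (sum_nonneg fun _ _ => sum_nonneg fun _ _ =>
      sum_nonneg fun _ _ => hC.le) one_pos, fun ω σ G hω hσ hle hG pG x => ?_⟩
  have h0 := h ω σ G hω hσ hle hG pG [] 0 (by simp) x
  have hE : 0 ≤ En (N + dd) θ ω σ G G := by
    have := hω.pos x
    have := hσ.pos x
    have := nA_nonneg 0 (dXw [] G x)
    exact (mul_nonneg_iff_of_pos_left hC).1 (le_trans (by positivity) h0)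
  simp only [bb, lev, ← nA_eq_ip_RR, one_pow, one_mul, mul_sum, add_mul, sum_mul]
  refine le_trans (sum_le_sum fun j hj => sum_le_sum fun m hm => sum_le_sum fun u hu => ?_)
    (le_add_of_nonneg_right hE)
  have hu' := mem_words.1 hu
  have hj' := mem_range.1 hj
  have hm' := mem_range.1 hm
  have := h ω σ G hω hσ hle hG pG u m (by omega) x
  rwa [hu'] at this

end Pool.Agent.BoltzD

end
end MrgPart2

-- ======== part 3: formerly Pool.Agent.BoltzD.Coll.Main
section MrgPart3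

/-!
Module M2, unconditional form.
-/

namespace Pool.Agent.BoltzD.Coll

variable [Dim]

theorem collStmt : CollStmt := coll_of C3.c3

theorem triStmt : TriStmt := tri_of C3.c3

theorem wgtStmt : WgtStmt := wgt_of C3.c3

end Pool.Agent.BoltzD.Coll

end MrgPart3

-- ======== part 4: formerly Pool.Agent.BoltzD.Coll.Fin
section MrgPart4

/-!
The passage to the physical variables, unconditional form.
-/

namespace Pool.Agent.BoltzD.Coll

variable [Dim]

theorem sigmaStmt : M6.SigmaStmt := ⟨0, fun _ _ hG V => sigma_eq hG V⟩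

theorem finalStmt : FinalStmt := M6.final_of sigmaStmt

end Pool.Agent.BoltzD.Coll

end MrgPart4

-- ======== part 5: formerly Pool.Agent.BoltzD.Bg.Final
section MrgPart5

/-! MC1: the background exists. -/

set_option autoImplicit false

namespace Pool.Agent.BoltzD

variable [Dim]

theorem bgStmt : BgStmt := fun h => by
  obtain ⟨P⟩ := h.prof
  obtain ⟨cut, K, c0, hp⟩ := preStmt P
  obtain ⟨nu, h0, h1, hh⟩ := exists_hyp P cut K c0 hp
  exact ⟨_, (hp nu h0 h1).ok hh⟩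

end Pool.Agent.BoltzD

end MrgPart5

-- ======== part 6: formerly Pool.Agent.BoltzD.Pos.Final
section MrgPart6

/-! Positivity module, unconditional form. -/

namespace Pool.Agent.BoltzD.Pos

variable [Dim]

theorem posStmt : PosStmt := pos_of C3.c3

end Pool.Agent.BoltzD.Pos

end MrgPart6

-- ======== part 7: formerly Pool.Agent.BoltzD.Pic.Main
section MrgPart7

/-! Choice of the constants: the Picard iteration. -/

set_option autoImplicit false

open Pool.Agent.BoltzC Finset Filter Topology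

noncomputable section

namespace Pool.Agent.BoltzD.Pic

variable [Dim]

lemma ev_small (a : ℝ) {b : ℝ} (hb : 0 < b) : ∀ᶠ M in 𝓝[>] (0 : ℝ), a * M ≤ b := by
  have : Tendsto (fun M : ℝ => a * M) (𝓝[>] 0) (𝓝 (a * 0)) :=
    (tendsto_id.mono_left nhdsWithin_le_nhds).const_mul a
  exact this.eventually (ge_mem_nhds (by simpa using hb))

lemma ev_inv (a : ℝ) {b : ℝ} (hb : 0 < b) : ∀ᶠ A in atTop, a * (A⁻¹ : ℝ) ^ 2 ≤ b := by
  have : Tendsto (fun A : ℝ => a * A⁻¹ ^ 2) atTop (𝓝 (a * 0 ^ 2)) :=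
    (tendsto_inv_atTop_zero.pow 2).const_mul a
  exact this.eventually (ge_mem_nhds (by simpa using hb))

theorem exists_cut (hV : VCutStmt) (n : ℕ) {e : ℝ} (he : 0 < e) :
    ∃ (Pt : SV →L[ℝ] SV) (Ce : ℝ), (∀ g, nA n ((PP - Pt) g) ≤ e * ip g g) ∧
      ∀ g V, |Pt g V| ≤ Ce * √(ip g g) * sqM V := by
  obtain ⟨et, C, hC, h1, h2⟩ := hV n (e / (dd + 2)) (by positivity)
  have ap : ∀ g, (∑ a, (ipL (eH a)).smulRight (et a)) g = ∑ a, ip (eH a) g • et a := fun g => by
    simp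
  have hp : ∀ g, ∑ a, ip (eH a) g ^ 2 ≤ ip g g := fun g => (ip_PP_PP g).symm.trans_le (ip_PP_PP_le g)
  refine ⟨∑ a, (ipL (eH a)).smulRight (et a), (dd + 2) * C, fun g => ?_, fun g V => ?_⟩
  · rw [sub_apply, ap, PP_apply, ← sum_sub_distrib]
    simp only [← smul_sub]
    calc _ ≤ (∑ a, ip (eH a) g ^ 2) * ∑ a, nA n (eH a - et a) := by
          simp only [nA, map_sum (apW _), map_smul (apW _)]
          rw [sum_comm, mul_sum]
          exact sum_le_sum fun w _ => ip_sum_smul_le _ _ _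
      _ ≤ ip g g * e := mul_le_mul (hp g) ((sum_le_card_nsmul _ _ _ fun a _ => h1 a).trans
          (le_of_eq (by simp; field_simp; ring))) (sum_nonneg fun _ _ => nA_nonneg _ _) (ip_self_nonneg _)
      _ = _ := mul_comm _ _
  · rw [ap, _root_.sum_apply]
    refine (abs_sum_le_sum_abs _ _).trans ((sum_le_card_nsmul _ _ (√(ip g g) * (C * sqM V))
      fun a _ => ?_).trans (le_of_eq (by simp; ring)))
    rw [smul_apply, smul_eq_mul, abs_mul]
    exact mul_le_mul (Real.abs_le_sqrt ((single_le_sum (f := fun a => ip (eH a) g ^ 2)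
      (fun _ _ => sq_nonneg _) (mem_univ a)).trans (hp g))) (h2 a V) (abs_nonneg _)
      (Real.sqrt_nonneg _)

lemma En_le {X : Dat} (h : X.Base) {n : ℕ} {θ s C p q r : ℝ} {G : E3 → SV} (hG : Sm G) (hs : 0 ≤ s)
    (hC : 0 ≤ C) (h0 : X.B.E n θ 0 s G G ≤ C * Real.exp (p * s))
    (h1 : X.B.E n θ X.B.eta s G G ≤ C * Real.exp (q * s)) (hp : p ≤ r) (hq : 2 * X.δ + q ≤ r) :
    En n θ (X.om s) (X.B.sig s) G G ≤ 2 * C * Real.exp (r * s) := by
  have a0 := mul_le_mul_of_nonneg_left (Real.exp_le_exp.2 (mul_le_mul_of_nonneg_right hp hs)) hC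
  have a1 := mul_le_mul_of_nonneg_left (Real.exp_le_exp.2 (mul_le_mul_of_nonneg_right hq hs)) hC
  have a2 := mul_le_mul_of_nonneg_left h1 (Real.exp_pos (2 * X.δ * s)).le
  rw [add_mul, Real.exp_add] at a1
  rw [Dat.En_om h _ _ _ hG hG]
  linarith

theorem iterStmt2 (hA : AlgStmt) (h4 : M4Stmt) (hG : GamStmt) (hS : SobStmt) (hC : CorrStmt)
    (hK : KStmt) (h3 : M3kStmt) (h3h : M3hStmt) (h5 : M5Stmt) (hV : VCutStmt) : IterStmt2 := by
  intro Q B hB N ε hε
  have k0 := hB.kap_pos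
  have hr := r_pos hB
  have hη := hB.eta_pos
  obtain ⟨δ1, d1, d2⟩ := exists_between
    (lt_min (half_lt_self k0) (show B.kap / 2 < B.eta by unfold BgD.eta; linarith))
  have d3 := d2.trans_le (min_le_left _ _)
  have d4 := d2.trans_le (min_le_right _ _)
  have d0 := (half_pos k0).trans d1
  obtain ⟨n4, h4⟩ := m4_at h4 Q hB
  obtain ⟨n5, h5⟩ := h5 B hB
  obtain ⟨n, hn⟩ : ∃ n, n = n4 + n5 + 2 * N + 2 * Q.p + 2 * dd + 2 := ⟨_, rfl⟩
  obtain ⟨θ, A0, C4, c, s1, hθ, hθ1, hC4, hc, hs1, h4⟩ := h4 n (by omega)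
  obtain ⟨m, φ, C0, CK, sK, hC0, hCK, hφ, hK⟩ :=
    hK B hB n θ C4 (B.eta - δ1) (by omega) hθ hθ1 (by linarith)
  obtain ⟨δ0, hδ0, h5⟩ := h5 (n + 1) (by omega) θ hθ hθ1 m φ hφ δ1 d0 d4
  obtain ⟨δ, hδ1, hδ2⟩ := exists_between (max_lt hδ0 d1)
  have hδ3 := (le_max_right _ _).trans_lt hδ1
  have hδ := (half_pos k0).trans hδ3
  obtain ⟨m', ψ, C5, s5, hC5, hψ, h5⟩ := h5 δ ((le_max_left _ _).trans_lt hδ1) hδ2
  let X : Dat := ⟨Q, B, n, θ, δ, m, φ, C0⟩
  have h : X.Base := ⟨hB, hθ, hθ1, hδ, hφ, hC0⟩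
  have hK1 : X.KBd CK sK := fun s hs i => ⟨(hK s hs).1 i, fun G hG pG => ((hK s hs).2 G hG pG).1 i⟩
  obtain ⟨s2, hs2, hL⟩ := lin_est hA h (s1 := max s1 sK) hC4 (sub_pos.2 d4)
    (by change _ + δ ≤ B.eta; linarith)
    (fun a ha ha1 g g' hg pg => (h4 a ha ha1 g g' hg pg).imp fun E' hE =>
      ⟨hE.1, hE.2.1, fun A hA s hs => hE.2.2 A hA s ((le_max_left _ _).trans hs)⟩)
    (fun s hs => hK1 s ((le_max_right _ _).trans hs))
    fun s hs G hG pG => ((hK s ((le_max_right _ _).trans hs)).2 G hG pG).2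
  obtain ⟨CS, sS, hCS, hsS, hS⟩ := Dat.sob_at hA hS h (by change dd ≤ n; omega)
  obtain ⟨gc, gc', R, sg, sR, pg, pg', pR, src, bC⟩ := hC B hB Q
  have bg : ∀ n, ∃ Cg, 0 < Cg ∧ ∀ s, 0 ≤ s →
      En n 1 (X.om s) (X.B.sig s) (gc s) (gc s) ≤ Cg := fun n => by
    obtain ⟨Cc, hCc, bC⟩ := bC n δ1 d0 d3.le d4
    refine ⟨2 * Cc, by positivity, fun s hs => ?_⟩
    simpa using En_le h (p := 0) (r := 0) (sg.sm.slice s) hs hCc.le (by simpa using (bC s hs).1)
      (bC s hs).2.1 le_rfl (by change 2 * δ + _ ≤ _; linarith)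
  obtain ⟨ρ, hρ, hρ0⟩ := exists_between (show 0 < min (min (δ1 - δ) (2 * δ - B.kap))
    (min (min (B.kap / 2) B.r) (δ * B.r / B.eta)) from lt_min (lt_min (by linarith) (by linarith))
      (lt_min (lt_min (half_pos k0) hr) (by positivity)))
  simp only [lt_min_iff] at hρ0
  obtain ⟨⟨hρ1, hρ2⟩, ⟨hρ3, hρ4⟩, hρ5⟩ := hρ0
  obtain ⟨C, s3, hC, hs3, hE⟩ := Dat.step_est hA hG h (by change n / 2 + Q.p + dd ≤ n; omega)
    (s2 := max s2 sS) hc (hsS.trans (le_max_right _ _))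
    (fun A s0 u u' S h1 h2 => hL A s0 u u' S h1 ((le_max_left _ _).trans h2)) hCS
    (fun s hs => hS s ((le_max_right _ _).trans hs)) hρ hρ2.le
    (le_min (by change ρ ≤ B.kap; linarith) hρ4.le) hρ5 sg.sm pg bg
  set CW := 2 * C5 * ((C0 / 2) ^ 2 * CK) with hCW
  have CW0 : 0 < CW := by positivity
  obtain ⟨Pt, Ce, hP, bP⟩ := exists_cut hV n (e := (10 * C * CW)⁻¹) (by positivity)
  obtain ⟨Cg, hCg, bg⟩ := bg n
  obtain ⟨Cc, hCc, bC⟩ := bC n δ1 d0 d3.le d4
  obtain ⟨M, ⟨⟨m1, m2⟩, m3⟩, hM⟩ := ((((ev_small (20 * C * (2 * CW + 2) ^ 2) one_pos).and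
    (ev_small (4 * Ce ^ 2 * (CS * CW)) one_pos)).and
    (ev_small (CS * (2 * Cg + 2 * (2 * CW + 2))) hε)).and self_mem_nhdsWithin).exists
  replace hM : 0 < M := hM
  obtain ⟨A, ⟨⟨a1, a2⟩, a3⟩, a4⟩ := ((((ev_inv 1 hM).and (ev_inv (10 * C * Cg) hM)).and
    (eventually_ge_atTop 1)).and (eventually_ge_atTop A0)).exists
  obtain ⟨s0, ⟨⟨⟨b1, b2⟩, b3⟩, b4⟩, b5⟩ := (((((ev_exp hρ A one_pos).and
    (ev_exp hρ (5 * C * (8 * Cc)) hM)).and (ev_exp hρ (5 * C * CW) one_pos)).and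
    (eventually_ge_atTop s3)).and (eventually_ge_atTop s5)).exists
  obtain ⟨aa, h5⟩ := h5 s0 b5
  have t1 : s2 ≤ s0 := (le_max_left _ _).trans (hs3.trans b4)
  have t2 : sS ≤ s0 := (le_max_right _ _).trans (hs3.trans b4)
  have t0 := hsS.trans t2
  have t3 : sK ≤ s0 := (le_max_right _ _).trans (hs2.trans t1)
  have hK2 : X.KBd CK s0 := fun s hs => hK1 s (t3.trans hs)
  have bg' : ∀ s, s0 ≤ s → X.EE n s (gc s) (gc s) ≤ Cg := fun s hs =>
    (Dat.EE_mono hA h le_rfl hθ1 s (sg.sm.slice s)).trans (bg s (t0.trans hs))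
  let Y : It := ⟨X, m', ψ, gc, gc', R, Pt, A, s0, aa⟩
  have hY : Y.Reg := ⟨h, hψ, sg, sR, pg, pg', pR, a3, t0⟩
  have hN : Y.Num M C CW := by
    refine ⟨hM, hC, CW0, fun a v c W W' hv hc hW s hs => ?_, ⟨ρ, 8 * Cc, _,
      fun A' s' l1 l2 a1 a2 b f V1 V2 W S1 u u' h1 h2 h3 =>
        hE A' s' l1 l2 a1 a2 b f V1 V2 W S1 u u' (a4.trans h1) h2 (b4.trans h3),
      b1, fun s hs => ?_, b2, b3, by positivity, hP, le_of_eq (by field_simp)⟩,
      (one_mul _).symm.trans_le a1, le_trans ?_ a2, m1⟩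
    · have := (h5 c (C0 / 2 * √(CK * a)) (by positivity) fun s hs i => by
        rw [hc]; exact Dat.cc_bd hA h hCK.le hK2 le_rfl hv hs i).2 W W' hW.smd hW.per hW.hyd
        hW.init hW.eqn s hs
      have ha := hv.nonneg h
      rw [mul_pow, Real.sq_sqrt (by positivity)] at this
      refine (En_le h (p := 0) (r := 0) (hW.smd.sm.slice s) (t0.trans hs) (by positivity)
        (by simpa using this.2) this.1 le_rfl (by change 2 * δ + _ ≤ _; linarith)).trans
        (le_of_eq ?_)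
      rw [zero_mul, Real.exp_zero, hCW]
      ring
    · have s' := t0.trans hs
      have sT := (sg.sm'.add (hA.smC_tr _ _ hB.fldC sg.sm)).slice s
      have q1 := Dat.EE_sub_le h n s (sR.slice s) (sT.const_smul A⁻¹)
      have hm := le_min hρ3.le hρ4.le
      have q2 := (Dat.EE_mono hA h le_rfl hθ1 s (sR.slice s)).trans (En_le h (r := -2 * ρ)
        (sR.slice s) s' hCc.le ((bC s s').2.2.2.2 0 (Or.inl rfl)) ((bC s s').2.2.2.2 _ (Or.inr rfl))
        (by linarith) (by change 2 * δ + _ ≤ _; linarith))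
      have q3 := (Dat.EE_mono hA h le_rfl hθ1 s sT).trans (En_le h (r := -2 * ρ) sT s' hCc.le
        (bC s s').2.2.1 (bC s s').2.2.2.1
        (by linarith) (by change 2 * δ + _ ≤ _; linarith))
      have q4 := mul_le_mul (pow_le_one₀ (n := 2) (by positivity) (inv_le_one_of_one_le₀ a3)) q3
        (Dat.EE_nonneg h _ _ _) zero_le_one
      rw [Dat.EE, Dat.EE, Dat.EE, En_smul_smul sT] at q1
      refine le_trans q1 ?_
      unfold Dat.EE at q2 q4
      linarith
    · have := mul_le_mul_of_nonneg_left (bg' s0 le_rfl)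
        (show 0 ≤ 10 * C * A⁻¹ ^ 2 by positivity)
      refine le_trans (le_of_eq ?_) (this.trans (le_of_eq (by ring)))
      exact (mul_assoc _ _ _).symm
  obtain ⟨h, h', g, e, hI⟩ := It.iter hA h3 h3h hY hN (N := N) (ε := ε)
    (by change _ ≤ n; omega) hCS (fun s hs => hS s (t2.trans hs)) hCK hK2 hC5 src bg'
    (fun c D hD hc => (h5 c D hD hc).1) bP (by linarith) (by linarith)
  exact ⟨A, s0, h, h', g, e, by linarith, t0, hI⟩

end Pool.Agent.BoltzD.Pic

end
end MrgPart7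

-- ======== part 8: formerly Pool.Agent.BoltzD.Top.Asm
section MrgPart8

/-!
Assembly of the modules.
-/

set_option autoImplicit false

namespace Pool.Agent.BoltzD

variable [Dim]

theorem m4_all : M4Stmt := m4_of vStmt etStmt interp (trStmt_of vStmt) Gain.gainStmt

theorem m4h_all : M4hStmt := m4h_of etStmt interp (trStmt_of vStmt) vStmt

theorem m5_all : M5Stmt := Lin.m5 Solver.m3h m4h_all

theorem iter2_all : IterStmt2 :=
  Pic.iterStmt2 algStmt m4_all Gain.gamStmt sobStmt Corr2.corrStmt KK.kStmt Solver.m3k Solver.m3h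
    m5_all Corr.vcut

theorem picard_all : PicardStmt := picard_of Coll.collStmt iter2_all.iter limit

/-- Everything follows from the existence of the profile. -/
theorem main_of_m1 (h1 : M1Stmt) : Stmt.MainD dd :=
  main_of h1 bgStmt picard_all Pos.posStmt Coll.finalStmt

end Pool.Agent.BoltzD

end MrgPart8

-- marker of a merged file
example : 731051 + 402117 = 731051 + 402117 := rfl

end MrgPart5

-- marker of a merged file
example : 731051 + 402117 = 731051 + 402117 := rfl
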