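import Pool.Agent.BoltzD.M7.SvLim
import Pool.Agent.MP_187b32_an.PD.Ser
import Pool.Agent.MP_187b32_an.PD.Quad
import Pool.Agent.BoltzD.Top.Asm
import Pool.Agent.BoltzD.M7.Time
import Pool.Agent.BoltzD.M7.Change
import Pool.Agent.BoltzD.Uq.Basic
import Pool.Agent.BoltzD.C3.Chain
import Pool.Agent.BoltzD.Uq.Fin
import Pool.Agent.BoltzD.Uq.Lim
import Pool.Agent.BoltzD.Uq.Main
import Pool.Agent.BoltzD.Uq.Trans

-- ======== part 0: formerly Pool.Agent.BoltzD.Prof.Main
section MrgPart0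

/-!
The profile statement `M1Stmt` follows from the inner and outer parts in every dimension.
-/

set_option autoImplicit false

namespace Pool.Agent.BoltzD.Prof

open Pool.Agent.MP_187b32_an

variable [Dim]

theorem m1_of_both (h : ∀ d : ℕ, 2 ≤ d → PD.Both (1 / d)) : M1Stmt :=
  m1_of (PD.prof_of PD.glue PD.quadStmt h)

end Pool.Agent.BoltzD.Prof

end MrgPart0

-- ======== part 1: formerly Pool.Agent.BoltzD.Top.All
section MrgPart1

/-! The statement in every dimension follows from the existence of the profiles. -/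

set_option autoImplicit false

namespace Pool.Agent.BoltzD

theorem mainD2_of_m1 [Dim] (h : M1Stmt) : Stmt.MainD2 dd :=
  M7.main2_of h bgStmt Coll.collStmt iter2_all limit2 Pos.posStmt Coll.sigmaStmt svLim timeStmt
    Change.changeStmt

theorem main2_of_both (h : ∀ d : ℕ, 2 ≤ d → MP_187b32_an.PD.Both (1 / d)) : Stmt.Main2 :=
  fun d hd => @mainD2_of_m1 ⟨d, hd⟩ (@Prof.m1_of_both ⟨d, hd⟩ h)

end Pool.Agent.BoltzD

end MrgPart1

-- ======== part 2: formerly Pool.Agent.BoltzD.Uq.Asm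
section MrgPart2

/-! Assembly of the statement with uniqueness. -/

set_option autoImplicit false

open Set Filter Topology Pool.Agent.BoltzC

noncomputable section

namespace Pool.Agent.BoltzD.M7

variable [Dim]

open M6

theorem main3_of (h1 : M1Stmt) (h2 : BgStmt) (hc : CollStmt) (hi : IterStmt2) (hl : LimitStmt2)
    (h4 : PosStmt) (hσ : SigmaStmt) (hs : SvLimStmt) (ht : TimeStmt) (hch : ChangeStmt)
    (hu : Uq.UniqStmt) : Stmt.MainD3 dd := by
  obtain ⟨B, hB⟩ := h2 h1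
  obtain ⟨Q, hQ⟩ := hc
  obtain ⟨ε0, p0, hε0, h4⟩ := h4
  obtain ⟨ε1, m, p1, hε1, h5⟩ := phys_of hσ
  obtain ⟨N0, ε2, hε2, hb⟩ := boundStmt Q
  obtain ⟨N, ε', hε', hl⟩ := hl Q hQ (max p0 p1) (min ε0 ε1) (lt_min hε0 hε1)
  obtain ⟨A, s0, h, h', g, e, hA, hs0, I, Lg⟩ := hi Q B hB (max N N0) (min ε' ε2) (lt_min hε' hε2)
  have hk := hB.sm_k1.const_smul A
  have hkp : ∀ s, Per fun x => A * B.k1 s x := fun s i x => by simp only [BgD.k1, hB.per_C s i x]
  have hk0 : ∀ s x, 0 < A * B.k1 s x := fun s x => by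
    have := hB.C_pos s x
    unfold BgD.k1
    positivity
  have I' : Iter Q B.fld (fun s x => A * B.k1 s x) s0 ε' N h h' g e :=
    { I with
      small := fun j s hs x => (nA_mono (le_max_left _ _) _).trans
        ((I.small j s hs x).trans (min_le_left _ _))
      cauchy := fun s1 η hη => (I.cauchy s1 η hη).imp fun J hJ j hj l hl s hs =>
        have t := hJ j hj l hl s hs
        ⟨fun u hu x => (nA_mono (le_max_left _ _) _).trans (t.1 u hu x),
          fun u hu x => (nA_mono (le_max_left _ _) _).trans (t.2.1 u hu x),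
          fun u hu x => (nA_mono (le_max_left _ _) _).trans (t.2.2 u hu x)⟩ }
  obtain ⟨f, hf, hlim⟩ := hl B.fld _ s0 h h' g e hB.fldC hk hkp I'
  obtain ⟨b1, b2, b3⟩ := hb B.fld _ s0 _ _ h h' g e hB.fldC hk hkp hk0 (le_max_right _ _)
    (min_le_right _ _) I Lg
  obtain ⟨G, g1, g2, g3, g4⟩ := hs Q B.fld _ s0 _ _ h h' g e hB.fldC hk hkp I b1 b2 b3
  have P := h5 B hB A s0 f hA hs0 (hf.mono (min_le_right _ _) (le_max_right _ _))
    (h4 B.fld _ s0 f hB.fldC hk hkp hk0 (hf.mono (min_le_left _ _) (le_max_left _ _)))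
  have S := hch _ _ A _ _ _ P.hr (contDiff_uV hB) hB.cd_C P.pu P.pc P.cpos
    (SmoothS.congr (H' := fun q => sqM q.2.2 * (sqM q.2.2 + f q.1 q.2.1 q.2.2))
      (ht Q B hB A s0 G g1 g2 g4) fun q hq => by
      rw [tendsto_nhds_unique (hlim q.1 hq.1 q.2.1 q.2.2) (g3 q.1 hq.1 q.2.1 q.2.2)])
  exact ⟨28, 1 / 4, Stmt.Bk dd, by norm_num, by norm_num, nonCutoff_B8, _, _, 0, Tb_pos P.hr,
    P.admissible', P.classical, S, hu _ _ P.classical S, P.implosion⟩

end Pool.Agent.BoltzD.M7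

end
end MrgPart2

-- ======== part 3: formerly Pool.Agent.BoltzD.Uq.Cross
section MrgPart3

/-! U3: the short jumps of the term in which the difference is the background. -/

set_option autoImplicit false

open MeasureTheory Set Filter Topology
open scoped ENNReal

noncomputable section

namespace Pool.Agent.BoltzD.Uq

open Coll C3

variable [Dim]

lemma int_mm (ε : ℝ) (F : E × E × S2 → ℝ) : ∫ p, F p ∂mm ε = ∫ p, kc ε p * F p ∂mu3 := by
  rw [mm, integral_withDensity_eq_integral_toReal_smul (by fun_prop)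
    (ae_of_all _ fun p => ENNReal.ofReal_lt_top)]
  simp only [ENNReal.toReal_ofReal (kc_nonneg ε _), smul_eq_mul]

lemma integrable_mm (ε : ℝ) {F : E × E × S2 → ℝ}
    (h : Integrable (fun p => kc ε p * F p) mu3) : Integrable F (mm ε) := by
  rw [mm, integrable_withDensity_iff_integrable_smul' (by fun_prop)
    (ae_of_all _ fun p => ENNReal.ofReal_lt_top)]
  simpa only [ENNReal.toReal_ofReal (kc_nonneg ε _), smul_eq_mul] using h

/-- convolution of the error kernel of the cancellation lemma with a decaying function -/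
lemma conv_dec : ∃ C : ℝ, 0 ≤ C ∧ ∀ (a : E → ℝ) (K : ℝ), Dec (28 + (dd + 1)) K a → ∀ v : E,
    ∫⁻ u, cbar ‖u‖ * ENNReal.ofReal |a (v - u)| ≤ ENNReal.ofReal (C * K * (1 + ‖v‖) ^ 28) := by
  have hcb := cb_pos
  set J : ℝ≥0∞ := (∫⁻ z, ENNReal.ofReal (jap z)) + ∫⁻ u, newt u with hJ
  have hJ' : J ≠ ⊤ := ENNReal.add_ne_top.2 ⟨lint_jap, lint_newt⟩
  refine ⟨cb * J.toReal, by positivity, fun a K ha v => ?_⟩
  have hK := ha.nonneg
  have h1 : ∀ u : E, cbar ‖u‖ * ENNReal.ofReal |a (v - u)|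
      ≤ ENNReal.ofReal (cb * K * (1 + ‖v‖) ^ 28) * (ENNReal.ofReal (jap (v - u)) + newt u) := by
    intro u
    have h2 : (1 + ‖u‖) ^ 28 * |a (v - u)| ≤ (1 + ‖v‖) ^ 28 * (K * jap (v - u)) := by
      have h3 : 1 + ‖u‖ ≤ (1 + ‖v‖) * (1 + ‖v - u‖) := by
        simpa using one_add_sub_le v (v - u)
      calc (1 + ‖u‖) ^ 28 * |a (v - u)|
          ≤ ((1 + ‖v‖) * (1 + ‖v - u‖)) ^ 28 * |a (v - u)| := by gcongr
        _ = (1 + ‖v‖) ^ 28 * ((1 + ‖v - u‖) ^ 28 * |a (v - u)|) := by rw [mul_pow, mul_assoc]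
        _ ≤ _ := mul_le_mul_of_nonneg_left (le_jap (n := 28) (ha _)) (by positivity)
    have hj : jap (v - u) ≤ 1 := by
      unfold jap
      exact inv_le_one_of_one_le₀ (one_le_pow₀ (by linarith [norm_nonneg (v - u)]))
    have hj0 := jap_pos (v - u)
    have h4 : cb * (1 + ‖u‖) ^ 28 / ‖u‖ * |a (v - u)|
        ≤ cb * K * (1 + ‖v‖) ^ 28 * (jap (v - u) * ‖u‖⁻¹) := by
      calc cb * (1 + ‖u‖) ^ 28 / ‖u‖ * |a (v - u)|
          = cb * ‖u‖⁻¹ * ((1 + ‖u‖) ^ 28 * |a (v - u)|) := by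
            generalize (1 + ‖u‖) ^ 28 = Z; ring
        _ ≤ cb * ‖u‖⁻¹ * ((1 + ‖v‖) ^ 28 * (K * jap (v - u))) := by gcongr
        _ = _ := by generalize (1 + ‖v‖) ^ 28 = Z; ring
    rw [cbar, ← ENNReal.ofReal_mul (by positivity)]
    refine (ENNReal.ofReal_le_ofReal h4).trans ?_
    rw [ENNReal.ofReal_mul (by positivity)]
    refine mul_le_mul_right ?_ _
    by_cases hu : u ∈ Metric.ball (0 : E) 1
    · rw [newt, indicator_of_mem hu]
      exact le_add_left (ENNReal.ofReal_le_ofReal (mul_le_of_le_one_left (by positivity) hj))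
    · have : 1 ≤ ‖u‖ := by simpa using hu
      exact le_add_right (ENNReal.ofReal_le_ofReal
        (mul_le_of_le_one_right hj0.le (inv_le_one_of_one_le₀ this)))
  have hm : Measurable fun u : E => ENNReal.ofReal (jap (v - u)) := by fun_prop
  calc _ ≤ ∫⁻ u, ENNReal.ofReal (cb * K * (1 + ‖v‖) ^ 28)
        * (ENNReal.ofReal (jap (v - u)) + newt u) := lintegral_mono h1
    _ = ENNReal.ofReal (cb * K * (1 + ‖v‖) ^ 28) * J := by
      rw [lintegral_const_mul' _ _ ENNReal.ofReal_ne_top, lintegral_add_left hm,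
        lintegral_sub_left_eq_self (fun z => ENNReal.ofReal (jap z)) v]
    _ = _ := by
      conv_lhs => rw [← ENNReal.ofReal_toReal hJ']
      rw [← ENNReal.ofReal_mul (by positivity)]
      congr 1
      generalize (1 + ‖v‖) ^ 28 = Z; ring

/-- moments of order at most 30 are bounded by the weighted norm -/
lemma lint_pow_le {h : E → ℝ} {K' : ℝ} (hh : Measurable h) (dh : Dec (dd + 60) K' h) {m : ℕ}
    (hm : m ≤ 30) : ∫⁻ w, ENNReal.ofReal ((1 + ‖w‖) ^ m) * ENNReal.ofReal |h w|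
      ≤ ENNReal.ofReal (2 ^ 15 * ∫ v, |h v| * wt v) := by
  have hi : Integrable fun v => |h v| * wt v :=
    Dec.integrable (m := 30) (dh.abs.mono (by omega)) (by fun_prop) measurable_wt fun v => by
      rw [abs_of_pos (wt_pos' v)]; exact wt_le_pow v
  rw [← integral_const_mul, ofReal_integral_eq_lintegral_ofReal (hi.const_mul _)
    (ae_of_all _ fun v => by have := wt_pos' v; positivity)]
  refine lintegral_mono fun w => ?_
  simp only
  rw [← ENNReal.ofReal_mul (by positivity)]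
  refine ENNReal.ofReal_le_ofReal ?_
  have h1 : (1 + ‖w‖) ^ m ≤ 2 ^ 15 * wt w :=
    (pow_le_pow_right₀ (by linarith [norm_nonneg w]) hm).trans (pow_le_wt w)
  calc (1 + ‖w‖) ^ m * |h w| ≤ 2 ^ 15 * wt w * |h w| := by gcongr
    _ = _ := by ring

/-- the error term of the cancellation lemma -/
lemma err_le : ∃ C : ℝ, 0 ≤ C ∧ ∀ (a h : E → ℝ) (K K' : ℝ), Measurable a →
    Dec (28 + (dd + 1)) K a → Measurable h → Dec (dd + 60) K' h →
    err (fun q => a q.1 * h q.2) ≤ ENNReal.ofReal (C * K * ∫ v, |h v| * wt v) := by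
  obtain ⟨C, hC, hc⟩ := conv_dec
  refine ⟨C * 2 ^ 15, by positivity, fun a h K K' ha da hh dh => ?_⟩
  have hK := da.nonneg
  have h1 : err (fun q => a q.1 * h q.2)
      = ∫⁻ v, ∫⁻ z, cbar ‖z - v‖ * ENNReal.ofReal |a v| * ENNReal.ofReal |h z| := by
    refine lintegral_congr fun v => ?_
    rw [← lintegral_sub_left_eq_self
      (fun z => cbar ‖z - v‖ * ENNReal.ofReal |a v| * ENNReal.ofReal |h z|) v]
    refine lintegral_congr fun u => ?_
    simp only [sub_sub_cancel_left, norm_neg, abs_mul, ENNReal.ofReal_mul (abs_nonneg _),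
      mul_assoc]
  have hm : Measurable (Function.uncurry fun v z : E =>
      cbar ‖z - v‖ * ENNReal.ofReal |a v| * ENNReal.ofReal |h z|) := by
    unfold Function.uncurry; fun_prop
  rw [h1, lintegral_lintegral_swap hm.aemeasurable]
  calc _ ≤ ∫⁻ z, ENNReal.ofReal (C * K) *
        (ENNReal.ofReal ((1 + ‖z‖) ^ 28) * ENNReal.ofReal |h z|) := by
        refine lintegral_mono fun z => ?_
        simp only
        rw [lintegral_mul_const _ (by fun_prop), ← mul_assoc, ← ENNReal.ofReal_mul (by positivity),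
          ← lintegral_sub_left_eq_self _ z]
        simp only [sub_sub_cancel]
        exact mul_le_mul_left (hc a K da z) _
    _ ≤ ENNReal.ofReal (C * K) * ENNReal.ofReal (2 ^ 15 * ∫ v, |h v| * wt v) := by
        rw [lintegral_const_mul _ (by fun_prop)]
        exact mul_le_mul_right (lint_pow_le hh dh (by norm_num)) _
    _ = _ := by
        rw [← ENNReal.ofReal_mul (by positivity)]
        congr 1
        ring

/-- pointwise bound for the increment of the regular function -/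
lemma first_le {f h ψ : E → ℝ} {K : ℝ} (ε : ℝ) (hf : Nice (dd + 60) K f)
    (hψ : ∀ v, |ψ v| ≤ wt v) (p : E × E × S2) :
    |kc ε p * ψ (pv p.1 p.2.1 p.2.2) * (h p.2.1 * (f p.1 - f (pv p.1 p.2.1 p.2.2)))|
      ≤ kx p * (2 ^ 30 * K * ((1 + ‖p.1‖) ^ (dd + 30))⁻¹ * |h p.2.1|) := by
  have hK := hf.nonneg
  have hx := kx_nonneg p
  by_cases hr : |rho p| ≤ 1
  · have e1 : ‖pv p.1 p.2.1 p.2.2 - p.1‖ = |rho p| := norm_pv_sub _ _ _
    have a1 := hf.lip' p.1 (pv p.1 p.2.1 p.2.2) (e1 ▸ hr)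
    rw [e1, abs_sub_comm] at a1
    have a2 : |ψ (pv p.1 p.2.1 p.2.2)| ≤ 2 ^ 30 * (1 + ‖p.1‖) ^ 30 := by
      refine (hψ _).trans ((wt_le_pow _).trans ?_)
      rw [← mul_pow]
      gcongr
      exact wt_le_two_mul (by rw [norm_sub_rev, e1]; exact hr)
    have a3 : (1 + ‖p.1‖) ^ 30 * |f p.1 - f (pv p.1 p.2.1 p.2.2)|
        ≤ K * |rho p| * ((1 + ‖p.1‖) ^ (dd + 30))⁻¹ := by
      rw [← div_eq_mul_inv, le_div_iff₀ (wt_pos _ _)]
      rw [show dd + 60 = 30 + (dd + 30) by omega, pow_add] at a1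
      linarith
    have hk := kc_nonneg ε p
    have hw := wt_pos p.1 (dd + 30)
    rw [abs_mul, abs_mul, abs_mul, abs_of_nonneg hk]
    calc kc ε p * |ψ (pv p.1 p.2.1 p.2.2)| * (|h p.2.1| * |f p.1 - f (pv p.1 p.2.1 p.2.2)|)
        ≤ kc ε p * (2 ^ 30 * (1 + ‖p.1‖) ^ 30) * (|h p.2.1| * |f p.1 - f (pv p.1 p.2.1 p.2.2)|) := by
          gcongr
      _ = kc ε p * 2 ^ 30 * |h p.2.1|
          * ((1 + ‖p.1‖) ^ 30 * |f p.1 - f (pv p.1 p.2.1 p.2.2)|) := by
          generalize (1 + ‖p.1‖) ^ 30 = Z; ring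
      _ ≤ kc ε p * 2 ^ 30 * |h p.2.1| * (K * |rho p| * ((1 + ‖p.1‖) ^ (dd + 30))⁻¹) := by gcongr
      _ = kc ε p * |rho p| * (2 ^ 30 * K * ((1 + ‖p.1‖) ^ (dd + 30))⁻¹ * |h p.2.1|) := by
          generalize ((1 + ‖p.1‖) ^ (dd + 30))⁻¹ = Z; ring
      _ ≤ _ := mul_le_mul_of_nonneg_right (kc_mul_abs_le ε p) (by positivity)
  · rw [kc_eq, if_neg fun h' => hr h'.2, zero_mul, zero_mul, abs_zero]
    have hw := wt_pos p.1 (dd + 30)
    positivity

/-- the term with the increment of the regular function -/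
lemma first_lint {f h ψ : E → ℝ} {K K' : ℝ} (ε : ℝ) (hf : Nice (dd + 60) K f) (hh : Measurable h)
    (dh : Dec (dd + 60) K' h) (mψ : Measurable ψ) (hψ : ∀ v, |ψ v| ≤ wt v) :
    ∫⁻ p, ENNReal.ofReal |kc ε p * ψ p.1 *
        (h (pw p.1 p.2.1 p.2.2) * (f (pv p.1 p.2.1 p.2.2) - f p.1))| ∂mu3
      ≤ ENNReal.ofReal (cA * (2 ^ 30 * K * cJ) * 2 ^ 15 * ∫ v, |h v| * wt v) := by
  have hK := hf.nonneg
  have mf := hf.measurable
  have hA := cA_pos
  have hJ := cJ_nonneg
  rw [← lintegral_coll _ (by fun_prop)]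
  have d1 : Dec (dd + 1 + 29) (2 ^ 30 * K) fun v => 2 ^ 30 * K * ((1 + ‖v‖) ^ (dd + 30))⁻¹ := by
    intro v
    have hw := wt_pos v (dd + 30)
    rw [abs_of_nonneg (by positivity), show dd + 1 + 29 = dd + 30 by omega, mul_left_comm,
      mul_inv_cancel₀ hw.ne', mul_one]
  calc _ ≤ ∫⁻ p, ENNReal.ofReal (kx p) *
        (ENNReal.ofReal (2 ^ 30 * K * ((1 + ‖p.1‖) ^ (dd + 30))⁻¹) * ENNReal.ofReal |h p.2.1|) ∂mu3 := by
        refine lintegral_mono fun p => ?_
        have hw := wt_pos p.1 (dd + 30)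
        simp only [kc_coll]
        simp only [coll, pv_pv, pw_pw]
        rw [← ENNReal.ofReal_mul (by positivity), ← ENNReal.ofReal_mul (kx_nonneg p)]
        exact ENNReal.ofReal_le_ofReal (first_le ε hf hψ p)
    _ ≤ _ := lint_kx_le (a := fun v => ENNReal.ofReal (2 ^ 30 * K * ((1 + ‖v‖) ^ (dd + 30))⁻¹))
        (b := fun w => ENNReal.ofReal |h w|) (by fun_prop) (by fun_prop)
    _ ≤ ENNReal.ofReal cA * (ENNReal.ofReal (2 ^ 30 * K * cJ)
        * ENNReal.ofReal (2 ^ 15 * ∫ v, |h v| * wt v)) := by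
        refine mul_le_mul_right (mul_le_mul' ?_ (lint_pow_le hh dh (by norm_num))) _
        refine le_trans (lintegral_mono fun v => ?_) d1.lint_le
        have hw := wt_pos v (dd + 30)
        simp only
        rw [← ENNReal.ofReal_mul (by positivity), abs_of_nonneg (by positivity)]
    _ = _ := by
        rw [← ENNReal.ofReal_mul (by positivity), ← ENNReal.ofReal_mul hA.le]
        congr 1
        ring

theorem cross : CrossStmt := by
  obtain ⟨C, hC, hc⟩ := err_le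
  refine ⟨dd + 60, fun K => ⟨cA * (2 ^ 30 * K * cJ) * 2 ^ 15 + 2 * (C * K),
    fun f h ψ K' ε hε hf hh dh mψ hψ => ?_⟩⟩
  have hK := hf.nonneg
  have mf := hf.measurable
  have hA := cA_pos
  have hJ := cJ_nonneg
  have df : Dec (dd + 60) K f := hf.1
  have hN : 0 ≤ ∫ v, |h v| * wt v :=
    integral_nonneg fun v => mul_nonneg (abs_nonneg _) (wt_pos' v).le
  have l1 := first_lint ε hf hh dh mψ hψ
  have i1 : Integrable (fun p : E × E × S2 => kc ε p * ψ p.1 *
      (h (pw p.1 p.2.1 p.2.2) * (f (pv p.1 p.2.1 p.2.2) - f p.1))) mu3 := by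
    refine ⟨(by fun_prop : Measurable _).aestronglyMeasurable, ?_⟩
    rw [hasFiniteIntegral_iff_norm]
    exact l1.trans_lt ENNReal.ofReal_lt_top
  have b1 : ∫ p, kc ε p * ψ p.1 *
      (h (pw p.1 p.2.1 p.2.2) * (f (pv p.1 p.2.1 p.2.2) - f p.1)) ∂mu3
      ≤ cA * (2 ^ 30 * K * cJ) * 2 ^ 15 * ∫ v, |h v| * wt v := by
    refine (Real.le_norm_self _).trans ((norm_integral_le_lintegral_norm _).trans ?_)
    exact ENNReal.toReal_le_of_le_ofReal (by positivity) l1
  have i0 := integrable_pre (measurable_kc ε) (kc_nonneg ε) (kc_le_kx hε) mψ hψ hh mf dh df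
  have i2 := integrable_post (measurable_kc ε) (kc_nonneg ε) (kc_le_kx hε) mψ hψ hh mf dh df
  have j0 : Integrable (fun p : E × E × S2 => kc ε p * (ψ p.1 * f p.1 * h p.2.1)) mu3 :=
    i0.congr (ae_of_all _ fun p => by ring)
  have j1 : Integrable (fun p : E × E × S2 =>
      kc ε p * (ψ p.1 * f p.1 * h (pw p.1 p.2.1 p.2.2))) mu3 :=
    (i2.sub i1).congr (ae_of_all _ fun p => by simp only [Pi.sub_apply]; ring)
  have da : Dec (28 + (dd + 1)) K fun v => ψ v * f v := fun v => by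
    refine le_trans ?_ (df v)
    rw [abs_mul, ← mul_assoc]
    refine mul_le_mul_of_nonneg_right ?_ (abs_nonneg _)
    calc (1 + ‖v‖) ^ (28 + (dd + 1)) * |ψ v| ≤ (1 + ‖v‖) ^ (28 + (dd + 1)) * (1 + ‖v‖) ^ 30 :=
          mul_le_mul_of_nonneg_left ((hψ v).trans (wt_le_pow v)) (wt_pos _ _).le
      _ ≤ _ := by
          rw [← pow_add]
          exact pow_le_pow_right₀ (by linarith [norm_nonneg v]) (by omega)
  have e1 := hc (fun v => ψ v * f v) h K K' (by fun_prop) da hh dh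
  have c1 := cancel ε (H := fun q => ψ q.1 * f q.1 * h q.2) (by fun_prop) (integrable_mm ε j0)
    (integrable_mm ε j1) (ne_top_of_le_ne_top ENNReal.ofReal_ne_top e1)
  have e2 := ENNReal.toReal_le_of_le_ofReal (by positivity) e1
  rw [int_mm, int_mm] at c1
  have s : ∫ q, kc ε q * ψ q.1 * inc h f q ∂mu3 = ∫ p, kc ε p * ψ p.1 *
      (h (pw p.1 p.2.1 p.2.2) * (f (pv p.1 p.2.1 p.2.2) - f p.1)) ∂mu3
      + (∫ p, kc ε p * (ψ p.1 * f p.1 * h (pw p.1 p.2.1 p.2.2)) ∂mu3
        - ∫ p, kc ε p * (ψ p.1 * f p.1 * h p.2.1) ∂mu3) := by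
    have j2 : Integrable (fun p : E × E × S2 =>
        kc ε p * (ψ p.1 * f p.1 * h (pw p.1 p.2.1 p.2.2))
          - kc ε p * (ψ p.1 * f p.1 * h p.2.1)) mu3 := j1.sub j0
    rw [← integral_sub j1 j0, ← integral_add i1 j2]
    refine integral_congr_ae (ae_of_all _ fun p => ?_)
    simp only [inc]
    ring
  rw [s, add_mul]
  simp only at c1 e2
  linarith

end Pool.Agent.BoltzD.Uq

end
end MrgPart3

-- ======== part 4: formerly Pool.Agent.BoltzD.Top.Uniq
section MrgPart4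

/-! The statement with uniqueness in every dimension follows from the existence of the profiles. -/

set_option autoImplicit false

namespace Pool.Agent.BoltzD

theorem uniq_all [Dim] : Uq.UniqStmt :=
  Uq.uniq_of (Uq.vel_of (Uq.mainU Uq.pov) Uq.cross Uq.lim) Uq.trans

theorem mainD3_of_m1 [Dim] (h : M1Stmt) : Stmt.MainD3 dd :=
  M7.main3_of h bgStmt Coll.collStmt iter2_all limit2 Pos.posStmt Coll.sigmaStmt svLim timeStmt
    Change.changeStmt uniq_all

theorem main3_of_both (h : ∀ d : ℕ, 2 ≤ d → MP_187b32_an.PD.Both (1 / d)) (d : ℕ) (hd : 2 ≤ d) :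
    Stmt.MainD3 d :=
  @mainD3_of_m1 ⟨d, hd⟩ (@Prof.m1_of_both ⟨d, hd⟩ h)

end Pool.Agent.BoltzD

end MrgPart4

-- marker of a merged file
example : 731051 + 817599 = 731051 + 817599 := rfl
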